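import Pool.Agent.V1173.Herg.Mom

/-!
# The moments `∫ |u_i|^{2k} dσ`

Helper file for `MP_ab521b_an`.
-/

open MeasureTheory Set Metric Filter Topology
open scoped Pointwise ENNReal ComplexConjugate

namespace Pool.Agent.V1173.Herg

variable {n : ℕ}

/-- `β_k` -/
noncomputable def bet (i : Fin n) (k : ℕ) : ℝ := ∫ u, ‖(u : Cn n) i‖ ^ (2 * k) ∂(sig n)

/-- `γ_k` -/
noncomputable def gam (i j : Fin n) (k : ℕ) : ℝ :=
  ∫ u, ‖(u : Cn n) i‖ ^ (2 * k) * ‖(u : Cn n) j‖ ^ 2 ∂(sig n)

theorem mon_mul (a b a' b' : Fin n → ℕ) (u : Sph n) :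
    mon (a + a') (b + b') u = mon a b u * mon a' b' u := by
  unfold mon
  rw [← Finset.prod_mul_distrib]
  apply Finset.prod_congr rfl
  intro l _
  simp only [Pi.add_apply]
  ring

theorem mon_single (i : Fin n) (p q : ℕ) (u : Sph n) :
    mon (Pi.single i p) (Pi.single i q) u = (u : Cn n) i ^ p * conj ((u : Cn n) i) ^ q := by
  unfold mon
  rw [Finset.prod_eq_single i]
  · simp
  · intro l _ hl
    simp [Pi.single_eq_of_ne hl]
  · simp

theorem norm_pow_two (z : ℂ) (k : ℕ) : z ^ k * conj z ^ k = ((‖z‖ ^ (2 * k) : ℝ) : ℂ) := by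
  rw [← mul_pow, Complex.mul_conj, Complex.normSq_eq_norm_sq]
  push_cast
  rw [pow_mul]

theorem bet_eq (i : Fin n) (k : ℕ) :
    ∫ u, mon (Pi.single i k) (Pi.single i k) u ∂(sig n) = (bet i k : ℂ) := by
  unfold bet
  rw [← integral_complex_ofReal]
  apply integral_congr_ae
  filter_upwards with u
  rw [mon_single, norm_pow_two]

theorem gam_eq (i j : Fin n) (k : ℕ) :
    ∫ u, mon (Pi.single i k + Pi.single j 1) (Pi.single i k + Pi.single j 1) u ∂(sig n) =
      (gam i j k : ℂ) := by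
  unfold gam
  rw [← integral_complex_ofReal]
  apply integral_congr_ae
  filter_upwards with u
  rw [mon_mul, mon_single, mon_single, norm_pow_two, norm_pow_two]
  push_cast
  ring

theorem norm_coord_cont (i : Fin n) : Continuous fun u : Sph n => ‖(u : Cn n) i‖ :=
  (coord_cont i).norm

theorem sum_sq (u : Sph n) : ∑ j, ‖(u : Cn n) j‖ ^ 2 = 1 := by
  rw [← EuclideanSpace.norm_sq_eq, mem_sphere_zero_iff_norm.mp u.2]
  norm_num

theorem gam_swap {i j l : Fin n} (hj : j ≠ i) (hl : l ≠ i) (k : ℕ) : gam i j k = gam i l k := by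
  have h := integral_sphMap (swp j l)
    (fun u : Sph n => ‖(u : Cn n) i‖ ^ (2 * k) * ‖(u : Cn n) j‖ ^ 2)
    (((norm_coord_cont i).pow _).mul ((norm_coord_cont j).pow _))
  unfold gam
  rw [← h]
  apply integral_congr_ae
  filter_upwards with u
  change ‖swp j l (u : Cn n) i‖ ^ (2 * k) * ‖swp j l (u : Cn n) j‖ ^ 2 = _
  rw [swp_apply, swp_apply, Equiv.swap_apply_of_ne_of_ne hj.symm hl.symm, Equiv.swap_apply_left]

theorem gam_self (i : Fin n) (k : ℕ) : gam i i k = bet i (k + 1) := by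
  unfold gam bet
  congr 1
  funext u
  ring

theorem sum_gam (hn : 2 ≤ n) (i : Fin n) (k : ℕ) : ∑ j, gam i j k = bet i k := by
  have := sig_prob (n := n) (by omega)
  unfold gam bet
  rw [← integral_finsetSum]
  · apply integral_congr_ae
    filter_upwards with u
    rw [← Finset.mul_sum, sum_sq, mul_one]
  · intro j _
    exact cont_int _ (((norm_coord_cont i).pow _).mul ((norm_coord_cont j).pow _))

theorem gam_bet (hn : 2 ≤ n) {i j : Fin n} (hij : i ≠ j) (k : ℕ) :
    ((n : ℝ) - 1) * gam i j k = bet i k - bet i (k + 1) := by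
  have h1 := sum_gam hn i k
  rw [← Finset.add_sum_erase _ _ (Finset.mem_univ i), gam_self] at h1
  have h2 : ∑ l ∈ Finset.univ.erase i, gam i l k = ((n : ℝ) - 1) * gam i j k := by
    rw [Finset.sum_congr rfl fun l hl => gam_swap (Finset.ne_of_mem_erase hl) hij.symm k]
    rw [Finset.sum_const, Finset.card_erase_of_mem (Finset.mem_univ i), Finset.card_univ,
      Fintype.card_fin, nsmul_eq_mul, Nat.cast_sub (by omega)]
    norm_num
  rw [h2] at h1
  linarith

/-! ### the recursion -/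

/-- first coordinate after rotation -/
noncomputable def Wf (a b : ℂ) (θ : ℝ) : ℂ := Real.cos θ * a + Real.sin θ * b
/-- second coordinate after rotation -/
noncomputable def Vf (a b : ℂ) (θ : ℝ) : ℂ := -Real.sin θ * a + Real.cos θ * b

theorem Wf_deriv (a b : ℂ) (θ : ℝ) : HasDerivAt (Wf a b) (Vf a b θ) θ := by
  have h1 : HasDerivAt (fun t : ℝ => ((Real.cos t : ℝ) : ℂ)) ((-Real.sin θ : ℝ) : ℂ) θ :=
    (Real.hasDerivAt_cos θ).ofReal_comp
  have h2 : HasDerivAt (fun t : ℝ => ((Real.sin t : ℝ) : ℂ)) ((Real.cos θ : ℝ) : ℂ) θ :=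
    (Real.hasDerivAt_sin θ).ofReal_comp
  have h3 := (h1.mul_const a).add (h2.mul_const b)
  refine h3.congr_deriv ?_
  unfold Vf
  push_cast
  ring

theorem Vf_deriv (a b : ℂ) (θ : ℝ) : HasDerivAt (Vf a b) (-Wf a b θ) θ := by
  have h1 : HasDerivAt (fun t : ℝ => ((Real.cos t : ℝ) : ℂ)) ((-Real.sin θ : ℝ) : ℂ) θ :=
    (Real.hasDerivAt_cos θ).ofReal_comp
  have h2 : HasDerivAt (fun t : ℝ => ((Real.sin t : ℝ) : ℂ)) ((Real.cos θ : ℝ) : ℂ) θ :=
    (Real.hasDerivAt_sin θ).ofReal_comp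
  have h3 := (h2.neg.mul_const a).add (h1.mul_const b)
  refine h3.congr_deriv ?_
  unfold Wf
  push_cast
  ring

theorem Wf_conj (a b : ℂ) (θ : ℝ) : conj (Wf a b θ) = Wf (conj a) (conj b) θ := by
  simp only [Wf, map_add, map_mul, Complex.conj_ofReal]

theorem Vf_conj (a b : ℂ) (θ : ℝ) : conj (Vf a b θ) = Vf (conj a) (conj b) θ := by
  simp only [Vf, map_add, map_mul, map_neg, Complex.conj_ofReal]

theorem Wf_le {a b : ℂ} (ha : ‖a‖ ≤ 1) (hb : ‖b‖ ≤ 1) (θ : ℝ) : ‖Wf a b θ‖ ≤ 2 := by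
  unfold Wf
  have h1 : ‖(Real.cos θ : ℂ) * a‖ ≤ 1 := by
    rw [norm_mul, Complex.norm_real, Real.norm_eq_abs]
    exact mul_le_one₀ (Real.abs_cos_le_one θ) (norm_nonneg _) ha
  have h2 : ‖(Real.sin θ : ℂ) * b‖ ≤ 1 := by
    rw [norm_mul, Complex.norm_real, Real.norm_eq_abs]
    exact mul_le_one₀ (Real.abs_sin_le_one θ) (norm_nonneg _) hb
  exact (norm_add_le _ _).trans (by linarith)

theorem Vf_le {a b : ℂ} (ha : ‖a‖ ≤ 1) (hb : ‖b‖ ≤ 1) (θ : ℝ) : ‖Vf a b θ‖ ≤ 2 := by
  unfold Vf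
  have h1 : ‖-(Real.sin θ : ℂ) * a‖ ≤ 1 := by
    rw [norm_mul, norm_neg, Complex.norm_real, Real.norm_eq_abs]
    exact mul_le_one₀ (Real.abs_sin_le_one θ) (norm_nonneg _) ha
  have h2 : ‖(Real.cos θ : ℂ) * b‖ ≤ 1 := by
    rw [norm_mul, Complex.norm_real, Real.norm_eq_abs]
    exact mul_le_one₀ (Real.abs_cos_le_one θ) (norm_nonneg _) hb
  exact (norm_add_le _ _).trans (by linarith)

/-- the derivative of the integrand -/
noncomputable def Dk (k : ℕ) (a b a' b' : ℂ) (θ : ℝ) : ℂ :=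
  ((k + 1 : ℕ) * Wf a b θ ^ k * Vf a b θ) * (Wf a' b' θ ^ k * Vf a' b' θ) +
    Wf a b θ ^ (k + 1) * ((k * Wf a' b' θ ^ (k - 1) * Vf a' b' θ) * Vf a' b' θ +
      Wf a' b' θ ^ k * (-Wf a' b' θ))

theorem Ik_deriv (k : ℕ) (a b a' b' : ℂ) (θ : ℝ) :
    HasDerivAt (fun t => Wf a b t ^ (k + 1) * (Wf a' b' t ^ k * Vf a' b' t))
      (Dk k a b a' b' θ) θ := by
  have h1 := (Wf_deriv a b θ).pow (k + 1)
  have h2 := (Wf_deriv a' b' θ).pow k
  have h3 := h1.mul (h2.mul (Vf_deriv a' b' θ))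
  refine h3.congr_deriv ?_
  unfold Dk
  simp

theorem Dk_le (k : ℕ) {a b a' b' : ℂ} (ha : ‖a‖ ≤ 1) (hb : ‖b‖ ≤ 1) (ha' : ‖a'‖ ≤ 1)
    (hb' : ‖b'‖ ≤ 1) (θ : ℝ) : ‖Dk k a b a' b' θ‖ ≤
      ((k + 1 : ℕ) * 2 ^ k * 2) * (2 ^ k * 2) + 2 ^ (k + 1) * ((k * 2 ^ (k - 1) * 2) * 2 + 2 ^ k * 2) := by
  have w := Wf_le ha hb θ
  have v := Vf_le ha hb θ
  have w' := Wf_le ha' hb' θ
  have v' := Vf_le ha' hb' θ
  unfold Dk
  refine (norm_add_le _ _).trans (add_le_add ?_ ?_)
  · rw [norm_mul, norm_mul, norm_mul, norm_mul, norm_pow, norm_pow, Complex.norm_natCast]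
    gcongr
  · rw [norm_mul, norm_pow]
    refine mul_le_mul (by gcongr) ?_ (norm_nonneg _) (by positivity)
    refine (norm_add_le _ _).trans (add_le_add ?_ ?_)
    · rw [norm_mul, norm_mul, norm_mul, norm_pow, Complex.norm_natCast]
      gcongr
    · rw [norm_mul, norm_neg, norm_pow]
      gcongr

theorem Wf_cont (f g : Sph n → ℂ) (hf : Continuous f) (hg : Continuous g) (θ : ℝ) :
    Continuous fun u => Wf (f u) (g u) θ := by
  unfold Wf
  fun_prop

theorem Vf_cont (f g : Sph n → ℂ) (hf : Continuous f) (hg : Continuous g) (θ : ℝ) :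
    Continuous fun u => Vf (f u) (g u) θ := by
  unfold Vf
  fun_prop

theorem bet_gam (hn : 2 ≤ n) {i j : Fin n} (hij : i ≠ j) (k : ℕ) :
    bet i (k + 1) = (k + 1) * gam i j k := by
  have := sig_prob (n := n) (by omega)
  have hci : Continuous fun u : Sph n => conj ((u : Cn n) i) :=
    Complex.continuous_conj.comp (coord_cont i)
  have hcj : Continuous fun u : Sph n => conj ((u : Cn n) j) :=
    Complex.continuous_conj.comp (coord_cont j)
  set G : ℝ → Sph n → ℂ := fun t u => Wf ((u : Cn n) i) ((u : Cn n) j) t ^ (k + 1) *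
    (Wf (conj ((u : Cn n) i)) (conj ((u : Cn n) j)) t ^ k *
      Vf (conj ((u : Cn n) i)) (conj ((u : Cn n) j)) t) with hG
  have hGc : ∀ t, Continuous (G t) := by
    intro t
    exact ((Wf_cont _ _ (coord_cont i) (coord_cont j) t).pow _).mul
      (((Wf_cont _ _ hci hcj t).pow _).mul (Vf_cont _ _ hci hcj t))
  set m : Sph n → ℂ := mon (Pi.single i (k + 1)) (Pi.single i k + Pi.single j 1) with hm
  have hm1 : ∀ u, m u = (u : Cn n) i ^ (k + 1) * (conj ((u : Cn n) i) ^ k * conj ((u : Cn n) j)) := by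
    intro u
    have h1 : m u = mon (Pi.single i (k + 1) + 0) (Pi.single i k + Pi.single j 1) u := by
      rw [add_zero]
    rw [h1, mon_mul, mon_single]
    have h2 : mon (0 : Fin n → ℕ) (Pi.single j 1) u = conj ((u : Cn n) j) := by
      have h3 : (0 : Fin n → ℕ) = Pi.single j 0 := by simp
      rw [h3, mon_single]
      simp
    rw [h2]
    ring
  have hint : ∀ t, ∫ u, G t u ∂(sig n) = 0 := by
    intro t
    have h1 := integral_sphMap (planeE i j hij t) m (mon_cont _ _)
    have h2 : ∫ u, m u ∂(sig n) = 0 := by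
      apply int_mon_zero
      intro h
      have := congrFun h j
      simp [Pi.single_eq_of_ne hij.symm] at this
    rw [h2] at h1
    rw [← h1]
    apply integral_congr_ae
    filter_upwards with u
    rw [hm1]
    change _ = (planeE i j hij t (u : Cn n)) i ^ (k + 1) * (conj ((planeE i j hij t (u : Cn n)) i) ^ k *
      conj ((planeE i j hij t (u : Cn n)) j))
    rw [planeE_i, planeE_j]
    have e1 : (Real.cos t : ℂ) * (u : Cn n) i + Real.sin t * (u : Cn n) j =
      Wf ((u : Cn n) i) ((u : Cn n) j) t := rfl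
    have e2 : -(Real.sin t : ℂ) * (u : Cn n) i + Real.cos t * (u : Cn n) j =
      Vf ((u : Cn n) i) ((u : Cn n) j) t := rfl
    rw [e1, e2, Wf_conj, Vf_conj]
  have hder := hasDerivAt_integral_of_dominated_loc_of_deriv_le (μ := sig n) (x₀ := (0 : ℝ))
    (s := univ) (F := G) (F' := fun t u => Dk k ((u : Cn n) i) ((u : Cn n) j)
      (conj ((u : Cn n) i)) (conj ((u : Cn n) j)) t)
    (bound := fun _ => ((k + 1 : ℕ) * 2 ^ k * 2) * (2 ^ k * 2) +
      2 ^ (k + 1) * ((k * 2 ^ (k - 1) * 2) * 2 + 2 ^ k * 2)) univ_mem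
    (Eventually.of_forall fun t => (hGc t).aestronglyMeasurable) (cont_int _ (hGc 0))
    (by
      apply Continuous.aestronglyMeasurable
      unfold Dk
      have w1 := Wf_cont _ _ (coord_cont i) (coord_cont j) 0
      have v1 := Vf_cont _ _ (coord_cont i) (coord_cont j) 0
      have w2 := Wf_cont _ _ hci hcj 0
      have v2 := Vf_cont _ _ hci hcj 0
      fun_prop)
    (Eventually.of_forall fun u t _ => Dk_le k (coord_le u i) (coord_le u j)
      (by rw [RCLike.norm_conj]; exact coord_le u i) (by rw [RCLike.norm_conj]; exact coord_le u j) t)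
    (integrable_const _)
    (Eventually.of_forall fun u t _ => Ik_deriv k _ _ _ _ t)
  have h0 : HasDerivAt (fun t => ∫ u, G t u ∂(sig n)) 0 0 := by
    have : (fun t => ∫ u, G t u ∂(sig n)) = fun _ => 0 := funext hint
    rw [this]
    exact hasDerivAt_const _ _
  have h1 := hder.2.unique h0
  have h2 : ∀ u : Sph n, Dk k ((u : Cn n) i) ((u : Cn n) j) (conj ((u : Cn n) i))
      (conj ((u : Cn n) j)) 0 = (k + 1) * mon (Pi.single i k + Pi.single j 1)
        (Pi.single i k + Pi.single j 1) u + (k * mon (Pi.single i (k + 1))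
        (Pi.single i (k - 1) + Pi.single j 2) u - mon (Pi.single i (k + 1)) (Pi.single i (k + 1)) u) := by
    intro u
    rw [mon_mul, mon_single, mon_single, mon_single]
    have e1 : mon (Pi.single i (k + 1)) (Pi.single i (k - 1) + Pi.single j 2) u =
        (u : Cn n) i ^ (k + 1) * conj ((u : Cn n) i) ^ (k - 1) * conj ((u : Cn n) j) ^ 2 := by
      have e2 : mon (Pi.single i (k + 1)) (Pi.single i (k - 1) + Pi.single j 2) u =
        mon (Pi.single i (k + 1) + Pi.single j 0) (Pi.single i (k - 1) + Pi.single j 2) u := by simp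
      rw [e2, mon_mul, mon_single, mon_single]
      simp
    rw [e1]
    simp only [Dk, Wf, Vf, Real.cos_zero, Real.sin_zero]
    push_cast
    ring
  rw [integral_congr_ae (Eventually.of_forall h2)] at h1
  have c1 := cont_int (sig n) ((mon_cont (n := n) (Pi.single i k + Pi.single j 1)
        (Pi.single i k + Pi.single j 1)))
  have c2 := cont_int (sig n) ((mon_cont (n := n) (Pi.single i (k + 1))
        (Pi.single i (k - 1) + Pi.single j 2)))
  have c3 := cont_int (sig n) ((mon_cont (n := n) (Pi.single i (k + 1)) (Pi.single i (k + 1))))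
  have c4 : Integrable (fun u => (k : ℂ) * mon (n := n) (Pi.single i (k + 1))
      (Pi.single i (k - 1) + Pi.single j 2) u - mon (Pi.single i (k + 1)) (Pi.single i (k + 1)) u)
      (sig n) := (c2.const_mul _).sub c3
  have c5 : ∫ u, mon (n := n) (Pi.single i (k + 1)) (Pi.single i (k - 1) + Pi.single j 2) u
      ∂(sig n) = 0 := by
    apply int_mon_zero
    intro h
    have := congrFun h j
    simp [Pi.single_eq_of_ne hij.symm] at this
  rw [integral_add (c1.const_mul _) c4, integral_sub (c2.const_mul _) c3,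
    integral_const_mul, integral_const_mul, gam_eq, bet_eq, c5] at h1
  have h3 : ((bet i (k + 1) : ℝ) : ℂ) = (((k + 1) * gam i j k : ℝ) : ℂ) := by
    push_cast
    linear_combination -h1
  exact_mod_cast h3

theorem bet_zero (hn : 2 ≤ n) (i : Fin n) : bet i 0 = 1 := by
  have := sig_prob (n := n) (by omega)
  simp [bet]

/-- The recursion. -/
theorem bet_rec (hn : 2 ≤ n) {i j : Fin n} (hij : i ≠ j) (k : ℕ) :
    bet i (k + 1) * (n + k) = bet i k * (k + 1) := by
  have h1 := bet_gam hn hij k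
  have h2 := gam_bet hn hij k
  rw [h1] at h2 ⊢
  linear_combination (k + 1 : ℝ) * h2

theorem bet_pos (hn : 2 ≤ n) {i j : Fin n} (hij : i ≠ j) (k : ℕ) : 0 < bet i k := by
  induction k with
  | zero => rw [bet_zero hn]; norm_num
  | succ k ih =>
    have h := bet_rec hn hij k
    have h1 : 0 < bet i k * (k + 1) := by positivity
    rw [← h] at h1
    have h2 : (0 : ℝ) < n + k := by positivity
    by_contra hneg
    push Not at hneg
    linarith [mul_nonpos_of_nonpos_of_nonneg hneg h2.le]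

end Pool.Agent.V1173.Herg
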