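import Pool.Agent.V1173.Herg.Null

/-!
# The surface measure is the Herglotz measure of the identity

Helper file for `MP_ab521b_an`.
-/

open MeasureTheory Set Metric Filter Topology
open scoped Pointwise ENNReal ComplexConjugate

namespace Pool.Agent.V1173.Herg

variable {n : ℕ}

/-- The class `P_E(𝕊)`. -/
def PE (μ : Measure (Sph n)) : Prop := IsProbabilityMeasure μ ∧ InClosure μ

/-- The class `𝓜` of normalised holomorphic maps of the ball with `Re ⟨f(z), z⟩ > 0`. -/
def MM (f : Cn n → Cn n) : Prop :=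
  DifferentiableOn ℂ f (ball 0 1) ∧ f 0 = 0 ∧ fderiv ℂ f 0 = ContinuousLinearMap.id ℂ (Cn n) ∧
    ∀ z ∈ ball (0 : Cn n) 1, z ≠ 0 → 0 < (inner ℂ z (f z)).re

/-- The class `P_H(𝕊)` of Herglotz measures of members of `𝓜`. -/
def PH (μ : Measure (Sph n)) : Prop :=
  PE μ ∧ ∃ f : Cn n → Cn n, MM f ∧ ∀ z ∈ ball (0 : Cn n) 1,
    f z = ∫ u : Sph n, ((2 * n / (1 - inner ℂ (u : Cn n) z) ^ (n + 1) : ℂ) • ((u : Cn n) - z) -
      (2 * n : ℂ) • (u : Cn n) - z) ∂μ

/-- A set is `P_H`-null if its trace on the sphere is a null set of every measure of `P_H(𝕊)`. -/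
def PHNull (V : Set (Cn n)) : Prop :=
  ∀ μ : Measure (Sph n), PH μ → μ {u : Sph n | (u : Cn n) ∈ V} = 0

/-- `⟨z, u⟩` -/
noncomputable def wf (z : Cn n) (u : Sph n) : ℂ := inner ℂ (u : Cn n) z

theorem wf_cont (z : Cn n) : Continuous (wf z) := by
  unfold wf
  fun_prop

theorem wf_le (z : Cn n) (u : Sph n) : ‖wf z u‖ ≤ ‖z‖ := by
  have h := norm_inner_le_norm (𝕜 := ℂ) (u : Cn n) z
  rwa [mem_sphere_zero_iff_norm.mp u.2, one_mul] at h

theorem wf_rot (z : Cn n) (c : Circle) (u : Sph n) :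
    wf z (sphMap (rot fun _ => c) u) = conj (c : ℂ) * wf z u := by
  have h1 : ((sphMap (rot fun _ => c) u : Sph n) : Cn n) = (c : ℂ) • (u : Cn n) := by
    ext j
    change rot _ (u : Cn n) j = _
    rw [rot_apply]
    rfl
  unfold wf
  rw [h1, inner_smul_left]

theorem wf_eq (z : Cn n) (u : Sph n) : wf z u = ∑ j, z j * conj ((u : Cn n) j) := by
  unfold wf
  rw [PiLp.inner_apply]
  rfl

theorem rot_coord (c : Circle) (u : Sph n) (k : Fin n) :
    ((sphMap (rot fun _ => c) u : Sph n) : Cn n) k = (c : ℂ) * (u : Cn n) k := by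
  change rot _ (u : Cn n) k = _
  rw [rot_apply]

theorem int_wf (z : Cn n) {m : ℕ} (hm : m ≠ 0) : ∫ u, wf z u ^ m ∂(sig n) = 0 := by
  obtain ⟨c, hc⟩ := exists_circle (a := 0) (b := m) (Ne.symm hm)
  have h1 := integral_sphMap (rot fun _ => c) _ ((wf_cont z).pow m)
  have h2 : ∀ u, wf z (sphMap (rot fun _ => c) u) ^ m =
      ((c : ℂ) ^ 0 * conj (c : ℂ) ^ m) * wf z u ^ m := by
    intro u
    rw [wf_rot]
    ring
  simp only [Pi.pow_apply] at h1
  simp_rw [h2] at h1
  rw [integral_const_mul] at h1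
  have h4 : ((c : ℂ) ^ 0 * conj (c : ℂ) ^ m - 1) * ∫ u, wf z u ^ m ∂(sig n) = 0 := by
    linear_combination h1
  rcases mul_eq_zero.mp h4 with h5 | h5
  · exact absurd (sub_eq_zero.mp h5) hc
  · exact h5

theorem int_coord_wf (z : Cn n) (k : Fin n) {m : ℕ} (hm : m ≠ 1) :
    ∫ u : Sph n, (u : Cn n) k * wf z u ^ m ∂(sig n) = 0 := by
  obtain ⟨c, hc⟩ := exists_circle (a := 1) (b := m) (Ne.symm hm)
  have h1 := integral_sphMap (rot fun _ => c) (fun u : Sph n => (u : Cn n) k * wf z u ^ m)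
    ((coord_cont k).mul ((wf_cont z).pow m))
  have h2 : ∀ u : Sph n, ((sphMap (rot fun _ => c) u : Sph n) : Cn n) k *
      wf z (sphMap (rot fun _ => c) u) ^ m =
      ((c : ℂ) ^ 1 * conj (c : ℂ) ^ m) * ((u : Cn n) k * wf z u ^ m) := by
    intro u
    rw [wf_rot, rot_coord]
    ring
  simp_rw [h2] at h1
  rw [integral_const_mul] at h1
  have h4 : ((c : ℂ) ^ 1 * conj (c : ℂ) ^ m - 1) *
      ∫ u : Sph n, (u : Cn n) k * wf z u ^ m ∂(sig n) = 0 := by
    linear_combination h1
  rcases mul_eq_zero.mp h4 with h5 | h5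
  · exact absurd (sub_eq_zero.mp h5) hc
  · exact h5

theorem int_coord_wf_one (hn : 2 ≤ n) (z : Cn n) (k : Fin n) :
    ∫ u : Sph n, (u : Cn n) k * wf z u ∂(sig n) = z k / n := by
  have := sig_prob (n := n) (by omega)
  obtain ⟨j, hj⟩ : ∃ j : Fin n, k ≠ j := by
    by_cases h : k = ⟨0, by omega⟩
    · exact ⟨⟨1, by omega⟩, by rw [h]; intro h2; have := congrArg Fin.val h2; simp at this⟩
    · exact ⟨_, h⟩
  have h1 : ∀ u : Sph n, (u : Cn n) k * wf z u =
      ∑ l, z l * mon (Pi.single k 1) (Pi.single l 1) u := by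
    intro u
    rw [wf_eq, Finset.mul_sum]
    apply Finset.sum_congr rfl
    intro l _
    have h2 : mon (Pi.single k 1) (Pi.single l 1) u =
      mon (Pi.single k 1 + 0) (0 + Pi.single l 1) u := by simp
    rw [h2, mon_mul, mon_left_single, mon_right_single]
    ring
  simp_rw [h1]
  rw [integral_finsetSum _ fun l _ => (cont_int _ (mon_cont _ _)).const_mul _]
  simp_rw [integral_const_mul]
  rw [Finset.sum_eq_single k]
  · rw [bet_eq]
    have h3 := bet_rec hn hj 0
    rw [bet_zero hn] at h3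
    push_cast at h3
    have h4 : bet k 1 = 1 / n := by
      have hn0 : (n : ℝ) ≠ 0 := by
        have : 0 < n := by omega
        positivity
      field_simp
      linarith
    rw [h4]
    push_cast
    ring
  · intro l _ hl
    rw [int_mon_zero]
    · ring
    · intro h
      have := congrFun h k
      rw [Pi.single_eq_same, Pi.single_eq_of_ne (Ne.symm hl)] at this
      omega
  · simp

/-- integrating the geometric series -/
theorem series (z : Cn n) (hz : ‖z‖ < 1) [IsProbabilityMeasure (sig n)] {g : Sph n → ℂ}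
    (hg : Continuous g) (hg1 : ∀ u, ‖g u‖ ≤ 1) :
    HasSum (fun m : ℕ => ∫ u, (((m + n).choose n : ℕ) : ℂ) * (g u * wf z u ^ m) ∂(sig n))
      (∫ u, g u * (1 / (1 - wf z u) ^ (n + 1)) ∂(sig n)) := by
  have hz' : ‖(‖z‖ : ℝ)‖ < 1 := by rwa [norm_norm]
  have hs : Summable fun m : ℕ => (((m + n).choose n : ℕ) : ℝ) * ‖z‖ ^ m :=
    (hasSum_choose_mul_geometric_of_norm_lt_one n hz').summable
  apply hasSum_integral_of_dominated_convergence
    (fun (m : ℕ) (_ : Sph n) => (((m + n).choose n : ℕ) : ℝ) * ‖z‖ ^ m)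
  · intro m
    apply Continuous.aestronglyMeasurable
    exact (hg.mul ((wf_cont z).pow m)).const_mul _
  · intro m
    filter_upwards with u
    rw [norm_mul, norm_mul, norm_pow, Complex.norm_natCast]
    have h1 := hg1 u
    have h2 := wf_le z u
    calc (((m + n).choose n : ℕ) : ℝ) * (‖g u‖ * ‖wf z u‖ ^ m) ≤
        (((m + n).choose n : ℕ) : ℝ) * (1 * ‖z‖ ^ m) := by gcongr
      _ = _ := by ring
  · filter_upwards with u
    exact hs
  · exact integrable_const _
  · filter_upwards with u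
    have h1 : ‖wf z u‖ < 1 := (wf_le z u).trans_lt hz
    have h2 := (hasSum_choose_mul_geometric_of_norm_lt_one n h1).mul_left (g u)
    have h3 : (fun m : ℕ => (((m + n).choose n : ℕ) : ℂ) * (g u * wf z u ^ m)) =
        fun m : ℕ => g u * ((((m + n).choose n : ℕ) : ℂ) * wf z u ^ m) := by
      funext m
      ring
    rw [h3]
    exact h2

theorem int_one_series (hn : 2 ≤ n) (z : Cn n) (hz : ‖z‖ < 1) :
    ∫ u, 1 / (1 - wf z u) ^ (n + 1) ∂(sig n) = 1 := by
  have := sig_prob (n := n) (by omega)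
  have h := series z hz (g := fun _ => 1) continuous_const (fun _ => by simp)
  have h1 := hasSum_single
    (f := fun m : ℕ => ∫ u, (((m + n).choose n : ℕ) : ℂ) * (1 * wf z u ^ m) ∂(sig n)) 0 (by
    intro m hm
    simp_rw [one_mul]
    rw [integral_const_mul, int_wf z hm, mul_zero])
  have h3 := h.unique h1
  simp_rw [one_mul] at h3
  rw [h3]
  simp

theorem int_coord_series (hn : 2 ≤ n) (z : Cn n) (hz : ‖z‖ < 1) (k : Fin n) :
    ∫ u : Sph n, (u : Cn n) k * (1 / (1 - wf z u) ^ (n + 1)) ∂(sig n) = (n + 1) * (z k / n) := by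
  have := sig_prob (n := n) (by omega)
  have h := series z hz (g := fun u : Sph n => (u : Cn n) k) (coord_cont k) (fun u => coord_le u k)
  have h1 := hasSum_single
    (f := fun m : ℕ => ∫ u : Sph n, (((m + n).choose n : ℕ) : ℂ) *
      ((u : Cn n) k * wf z u ^ m) ∂(sig n)) 1 (by
    intro m hm
    rw [integral_const_mul, int_coord_wf z k hm, mul_zero])
  rw [h.unique h1]
  simp only
  rw [integral_const_mul]
  simp_rw [pow_one]
  rw [int_coord_wf_one hn]
  have h4 : (1 + n).choose n = n + 1 := by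
    rw [add_comm, Nat.choose_succ_self_right]
  rw [h4]
  push_cast
  rfl

theorem int_coord (k : Fin n) : ∫ u : Sph n, (u : Cn n) k ∂(sig n) = 0 := by
  have := int_coord_wf (n := n) 0 k (m := 0) (by norm_num)
  simpa using this

/-- the representation of the identity -/
theorem repr_id (hn : 2 ≤ n) (z : Cn n) (hz : ‖z‖ < 1) :
    z = ∫ u : Sph n, ((2 * n / (1 - inner ℂ (u : Cn n) z) ^ (n + 1) : ℂ) • ((u : Cn n) - z) -
      (2 * n : ℂ) • (u : Cn n) - z) ∂(sig n) := by
  have := sig_prob (n := n) (by omega)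
  have hne : ∀ u : Sph n, (1 - wf z u) ≠ 0 := by
    intro u h
    have h1 : wf z u = 1 := (sub_eq_zero.mp h).symm
    have h2 := wf_le z u
    rw [h1, norm_one] at h2
    linarith
  have hcw : Continuous fun u : Sph n => 1 / (1 - wf z u) ^ (n + 1) := by
    apply Continuous.div continuous_const
    · exact (continuous_const.sub (wf_cont z)).pow _
    · intro u
      exact pow_ne_zero _ (hne u)
  have hcont : Continuous fun u : Sph n => ((2 * n / (1 - inner ℂ (u : Cn n) z) ^ (n + 1) : ℂ) •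
      ((u : Cn n) - z) - (2 * n : ℂ) • (u : Cn n) - z) := by
    have h1 : Continuous fun u : Sph n => (2 * n / (1 - inner ℂ (u : Cn n) z) ^ (n + 1) : ℂ) := by
      have := hcw.const_mul (2 * n : ℂ)
      refine this.congr fun u => ?_
      unfold wf
      ring
    have h2 : Continuous fun u : Sph n => (u : Cn n) := continuous_subtype_val
    exact ((h1.smul (h2.sub continuous_const)).sub (h2.const_smul (2 * n : ℂ))).sub continuous_const
  ext k
  have hproj := (EuclideanSpace.proj (𝕜 := ℂ) k : Cn n →L[ℂ] ℂ).integral_comp_comm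
    (cont_int (sig n) hcont)
  have hk : ∀ x : Cn n, (EuclideanSpace.proj (𝕜 := ℂ) k : Cn n →L[ℂ] ℂ) x = x k := fun x => rfl
  rw [hk] at hproj
  rw [← hproj]
  have e1 : ∀ u : Sph n, (EuclideanSpace.proj (𝕜 := ℂ) k : Cn n →L[ℂ] ℂ)
      ((2 * n / (1 - inner ℂ (u : Cn n) z) ^ (n + 1) : ℂ) •
      ((u : Cn n) - z) - (2 * n : ℂ) • (u : Cn n) - z) =
      (2 * n : ℂ) * ((u : Cn n) k * (1 / (1 - wf z u) ^ (n + 1))) -
      (2 * n * z k : ℂ) * (1 / (1 - wf z u) ^ (n + 1)) - (2 * n : ℂ) * (u : Cn n) k - z k := by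
    intro u
    rw [hk]
    simp only [PiLp.sub_apply, PiLp.smul_apply, smul_eq_mul]
    unfold wf
    ring
  simp_rw [e1]
  have i1 : Integrable (fun u : Sph n => (2 * n : ℂ) * ((u : Cn n) k * (1 / (1 - wf z u) ^ (n + 1))))
      (sig n) := (cont_int _ ((coord_cont k).mul hcw)).const_mul _
  have i2 : Integrable (fun u : Sph n => (2 * n * z k : ℂ) * (1 / (1 - wf z u) ^ (n + 1))) (sig n) :=
    (cont_int _ hcw).const_mul _
  have i3 : Integrable (fun u : Sph n => (2 * n : ℂ) * (u : Cn n) k) (sig n) :=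
    (cont_int _ (coord_cont k)).const_mul _
  have i4 : Integrable (fun u : Sph n => (2 * n : ℂ) * ((u : Cn n) k * (1 / (1 - wf z u) ^ (n + 1))) -
      (2 * n * z k : ℂ) * (1 / (1 - wf z u) ^ (n + 1))) (sig n) := i1.sub i2
  have i5 : Integrable (fun u : Sph n => (2 * n : ℂ) * ((u : Cn n) k * (1 / (1 - wf z u) ^ (n + 1))) -
      (2 * n * z k : ℂ) * (1 / (1 - wf z u) ^ (n + 1)) - (2 * n : ℂ) * (u : Cn n) k) (sig n) := i4.sub i3
  rw [integral_sub i5 (integrable_const _), integral_sub i4 i3, integral_sub i1 i2,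
    integral_const_mul, integral_const_mul, integral_const_mul, int_coord_series hn z hz,
    int_one_series hn z hz, int_coord]
  have hn0 : (n : ℂ) ≠ 0 := by
    have : n ≠ 0 := by omega
    exact_mod_cast this
  simp only [integral_const, probReal_univ, one_smul]
  field_simp
  ring

theorem one_mem_E : (1 : C(Sph n, ℂ)) ∈ EE n := by
  have h1 : ∀ k : Fin n, (⟨mon (Pi.single k 1) (Pi.single k 1), mon_cont _ _⟩ : C(Sph n, ℂ)) ∈ EE n := by
    intro k
    apply Submodule.subset_span
    refine ⟨k, Pi.single k 1, ?_, Or.inl fun u => ?_⟩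
    · intro h
      have := congrFun h k
      simp at this
    · change mon (Pi.single k 1) (Pi.single k 1) u = _
      rw [← mon_zero_right, mon_left_single, mon_single]
      ring
  have h2 : (1 : C(Sph n, ℂ)) = ∑ k : Fin n, ⟨mon (Pi.single k 1) (Pi.single k 1), mon_cont _ _⟩ := by
    ext u
    rw [ContinuousMap.sum_apply]
    change (1 : ℂ) = ∑ k : Fin n, mon (Pi.single k 1) (Pi.single k 1) u
    have h3 := sum_sq u
    have h4 : ∀ k : Fin n, mon (Pi.single k 1) (Pi.single k 1) u = ((‖(u : Cn n) k‖ ^ 2 : ℝ) : ℂ) := by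
      intro k
      rw [mon_single, norm_pow_two]
    simp_rw [h4]
    rw [← Complex.ofReal_sum, h3]
    simp
  rw [h2]
  exact Submodule.sum_mem _ fun k _ => h1 k

theorem sig_PH (hn : 2 ≤ n) : PH (sig n) := by
  have hp := sig_prob (n := n) (by omega)
  refine ⟨⟨hp, ?_⟩, id, ⟨differentiableOn_id, rfl, fderiv_id, ?_⟩, ?_⟩
  · intro s ε hε
    refine ⟨1, one_mem_E, fun φ _ => ?_⟩
    simp [hε]
  · intro z _ hz
    have h1 : (inner ℂ z (id z)).re = ‖z‖ ^ 2 := by
      rw [id, inner_self_eq_norm_sq_to_K]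
      norm_cast
    rw [h1]
    positivity
  · intro z hz
    exact repr_id hn z (mem_ball_zero_iff.mp hz)

/-- The real hyperplane `Re u_i = 0` is `P_H`-null. -/
theorem hyper_null (hn : 2 ≤ n) {i j : Fin n} (hij : i ≠ j) : PHNull {x : Cn n | (x i).re = 0} := by
  intro μ hμ
  have := hμ.1.1
  exact null_hyper hn hij hμ.1.2

theorem not_univ_null (hn : 2 ≤ n) : ¬ PHNull (univ : Set (Cn n)) := by
  intro h
  have hp := sig_prob (n := n) (by omega)
  have h1 := h _ (sig_PH hn)
  have h2 : {u : Sph n | (u : Cn n) ∈ (univ : Set (Cn n))} = univ := by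
    ext u
    simp
  rw [h2, measure_univ] at h1
  exact one_ne_zero h1

/-- The answer. -/
theorem answer (hn : 2 ≤ n) :
    IsGreatest {d : ℕ | ∃ V : Submodule ℂ (Cn n), Module.finrank ℂ V = d ∧ PHNull (V : Set (Cn n))}
      (n - 1) ∧
    IsGreatest {d : ℕ | ∃ V : Submodule ℝ (Cn n), Module.finrank ℝ V = d ∧ PHNull (V : Set (Cn n))}
      (2 * n - 1) := by
  set i : Fin n := ⟨0, by omega⟩ with hi
  set j : Fin n := ⟨1, by omega⟩ with hj
  have hij : i ≠ j := by
    intro h
    have := congrArg Fin.val h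
    simp [hi, hj] at this
  have hnull := hyper_null hn hij
  have hfin : Module.finrank ℂ (Cn n) = n := by simp
  have hfinR : Module.finrank ℝ (Cn n) = 2 * n := by
    rw [finrank_real_of_complex, hfin]
  refine ⟨⟨?_, ?_⟩, ⟨?_, ?_⟩⟩
  · set L : Cn n →ₗ[ℂ] ℂ := (EuclideanSpace.proj (𝕜 := ℂ) i : Cn n →L[ℂ] ℂ).toLinearMap with hL
    refine ⟨LinearMap.ker L, ?_, ?_⟩
    · have h1 := LinearMap.finrank_range_add_finrank_ker L
      have h2 : LinearMap.range L = ⊤ := by
        rw [LinearMap.range_eq_top]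
        intro c
        refine ⟨EuclideanSpace.single i c, ?_⟩
        change (EuclideanSpace.single i c : Cn n) i = c
        simp
      rw [h2, finrank_top, Module.finrank_self, hfin] at h1
      omega
    · intro μ hμ
      refine measure_mono_null ?_ (hnull μ hμ)
      intro u hu
      have h1 : (u : Cn n) i = 0 := hu
      change ((u : Cn n) i).re = 0
      rw [h1]
      rfl
  · rintro d ⟨V, rfl, hV⟩
    have h1 : V ≠ ⊤ := by
      rintro rfl
      exact not_univ_null hn hV
    have h2 := Submodule.finrank_lt h1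
    rw [hfin] at h2
    omega
  · set L : Cn n →ₗ[ℝ] ℝ := Complex.reCLM.toLinearMap.comp
      ((EuclideanSpace.proj (𝕜 := ℂ) i : Cn n →L[ℂ] ℂ).toLinearMap.restrictScalars ℝ) with hL
    refine ⟨LinearMap.ker L, ?_, ?_⟩
    · have h1 := LinearMap.finrank_range_add_finrank_ker L
      have h2 : LinearMap.range L = ⊤ := by
        rw [LinearMap.range_eq_top]
        intro c
        refine ⟨EuclideanSpace.single i (c : ℂ), ?_⟩
        change ((EuclideanSpace.single i (c : ℂ) : Cn n) i).re = c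
        simp
      rw [h2, finrank_top, Module.finrank_self, hfinR] at h1
      omega
    · intro μ hμ
      exact hnull μ hμ
  · rintro d ⟨V, rfl, hV⟩
    have h1 : V ≠ ⊤ := by
      rintro rfl
      exact not_univ_null hn hV
    have h2 := Submodule.finrank_lt h1
    rw [hfinR] at h2
    omega

end Pool.Agent.V1173.Herg
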