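import Pool.Agent.V1173.Herg.Sph

/-!
# Moments of the surface measure

Helper file for `MP_ab521b_an`.
-/

open MeasureTheory Set Metric Filter Topology
open scoped Pointwise ENNReal ComplexConjugate

namespace Pool.Agent.V1173.Herg

variable {n : ℕ}

/-! ### isometries -/

/-- diagonal unitary maps -/
noncomputable def rot (c : Fin n → Circle) : Cn n ≃ₗᵢ[ℝ] Cn n :=
  LinearIsometryEquiv.piLpCongrRight 2 fun j => rotation (c j)

theorem rot_apply (c : Fin n → Circle) (x : Cn n) (j : Fin n) : rot c x j = c j * x j := by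
  simp [rot]

/-- swaps of coordinates -/
noncomputable def swp (i j : Fin n) : Cn n ≃ₗᵢ[ℝ] Cn n :=
  LinearIsometryEquiv.piLpCongrLeft 2 ℝ ℂ (Equiv.swap i j)

theorem swp_apply (i j : Fin n) (x : Cn n) (k : Fin n) : swp i j x k = x (Equiv.swap i j k) := by
  simp [swp, LinearIsometryEquiv.piLpCongrLeft_apply, Equiv.piCongrLeft'_apply]

/-- a rotation in the plane of two coordinates -/
noncomputable def plane (i j : Fin n) (hij : i ≠ j) (θ : ℝ) : Cn n →ₗᵢ[ℝ] Cn n where
  toFun x := WithLp.toLp 2 fun k => if k = i then Real.cos θ * x i + Real.sin θ * x j else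
    if k = j then -Real.sin θ * x i + Real.cos θ * x j else x k
  map_add' x y := by
    ext k
    simp only [PiLp.add_apply]
    split_ifs <;> ring
  map_smul' a x := by
    ext k
    simp only [PiLp.smul_apply, RingHom.id_apply, Complex.real_smul]
    split_ifs <;> ring
  norm_map' x := by
    have h2 : ∀ a b : ℂ, ‖(Real.cos θ : ℂ) * a + Real.sin θ * b‖ ^ 2 +
        ‖-(Real.sin θ : ℂ) * a + Real.cos θ * b‖ ^ 2 = ‖a‖ ^ 2 + ‖b‖ ^ 2 := by
      intro a b
      rw [Complex.sq_norm, Complex.sq_norm, Complex.sq_norm, Complex.sq_norm]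
      simp only [Complex.normSq_apply, Complex.add_re, Complex.add_im, Complex.mul_re,
        Complex.mul_im, Complex.ofReal_re, Complex.ofReal_im, Complex.neg_re, Complex.neg_im]
      have := Real.sin_sq_add_cos_sq θ
      linear_combination (a.re ^ 2 + a.im ^ 2 + b.re ^ 2 + b.im ^ 2) * this
    have h3 : ‖(WithLp.toLp 2 fun k => if k = i then (Real.cos θ : ℂ) * x i + Real.sin θ * x j else
        if k = j then -(Real.sin θ : ℂ) * x i + Real.cos θ * x j else x k : Cn n)‖ ^ 2 =
        ‖x‖ ^ 2 := by
      rw [EuclideanSpace.norm_sq_eq, EuclideanSpace.norm_sq_eq,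
        ← Finset.add_sum_erase _ _ (Finset.mem_univ i),
        ← Finset.add_sum_erase (Finset.univ.erase i) _ (Finset.mem_erase.mpr ⟨hij.symm, Finset.mem_univ j⟩),
        ← Finset.add_sum_erase Finset.univ _ (Finset.mem_univ i),
        ← Finset.add_sum_erase (Finset.univ.erase i) _ (Finset.mem_erase.mpr ⟨hij.symm, Finset.mem_univ j⟩),
        ← add_assoc, ← add_assoc]
      congr 1
      · simp only [if_true, if_neg hij.symm]
        exact h2 _ _
      · apply Finset.sum_congr rfl
        intro k hk
        have hkj : k ≠ j := Finset.ne_of_mem_erase hk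
        have hki : k ≠ i := Finset.ne_of_mem_erase (Finset.mem_of_mem_erase hk)
        simp only [if_neg hki, if_neg hkj]
    have := (sq_eq_sq₀ (norm_nonneg _) (norm_nonneg _)).mp h3
    exact this

/-- the same map as an equivalence -/
noncomputable def planeE (i j : Fin n) (hij : i ≠ j) (θ : ℝ) : Cn n ≃ₗᵢ[ℝ] Cn n :=
  (plane i j hij θ).toLinearIsometryEquiv rfl

theorem planeE_i (i j : Fin n) (hij : i ≠ j) (θ : ℝ) (x : Cn n) :
    planeE i j hij θ x i = Real.cos θ * x i + Real.sin θ * x j := by
  simp [planeE, plane]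

theorem planeE_j (i j : Fin n) (hij : i ≠ j) (θ : ℝ) (x : Cn n) :
    planeE i j hij θ x j = -Real.sin θ * x i + Real.cos θ * x j := by
  simp [planeE, plane, hij.symm]

/-! ### monomials -/

/-- monomials -/
noncomputable def mon (a b : Fin n → ℕ) (u : Sph n) : ℂ :=
  ∏ i, (u : Cn n) i ^ a i * conj ((u : Cn n) i) ^ b i

theorem coord_cont (i : Fin n) : Continuous fun u : Sph n => (u : Cn n) i := by
  fun_prop

theorem mon_cont (a b : Fin n → ℕ) : Continuous (mon a b) := by
  unfold mon
  apply continuous_finsetProd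
  intro i _
  exact ((coord_cont i).pow _).mul ((Complex.continuous_conj.comp (coord_cont i)).pow _)

theorem coord_le (u : Sph n) (i : Fin n) : ‖(u : Cn n) i‖ ≤ 1 := by
  have h := PiLp.norm_apply_le (u : Cn n) i
  rwa [mem_sphere_zero_iff_norm.mp u.2] at h

theorem cont_int {F : Type*} [NormedAddCommGroup F] {g : Sph n → F} (μ : Measure (Sph n))
    [IsFiniteMeasure μ] (hg : Continuous g) : Integrable g μ :=
  hg.integrable_of_hasCompactSupport (HasCompactSupport.of_compactSpace g)

/-- a circle element which detects a non-zero exponent -/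
theorem exists_circle {a b : ℕ} (h : a ≠ b) : ∃ c : Circle, (c : ℂ) ^ a * conj (c : ℂ) ^ b ≠ 1 := by
  set t : ℝ := Real.pi / (a + b + 1) with ht
  refine ⟨Circle.exp t, ?_⟩
  have h1 : (Circle.exp t : ℂ) ^ a * conj (Circle.exp t : ℂ) ^ b =
      Complex.exp (((a : ℝ) - b) * t * Complex.I : ℂ) := by
    rw [Circle.coe_exp, ← Complex.exp_conj, ← Complex.exp_nat_mul, ← Complex.exp_nat_mul,
      ← Complex.exp_add]
    congr 1
    simp only [map_mul, Complex.conj_ofReal, Complex.conj_I]
    push_cast
    ring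
  rw [h1]
  intro h2
  rw [Complex.exp_eq_one_iff] at h2
  obtain ⟨k, hk⟩ := h2
  have h3 : ((a : ℝ) - b) * t = k * (2 * Real.pi) := by
    have h4 : (((a : ℝ) - b) * t * Complex.I : ℂ) = ((k * (2 * Real.pi) : ℝ) : ℂ) * Complex.I := by
      rw [hk]
      push_cast
      ring
    have h5 := mul_right_cancel₀ Complex.I_ne_zero h4
    exact_mod_cast h5
  have hpi := Real.pi_pos
  have hden : (0 : ℝ) < a + b + 1 := by positivity
  have h4 : ((a : ℝ) - b) = k * 2 * (a + b + 1) := by
    rw [ht] at h3
    field_simp at h3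
    linarith
  have h5 : (a : ℤ) - b = k * 2 * (a + b + 1) := by exact_mod_cast h4
  rcases lt_trichotomy k 0 with hk | hk | hk
  · have h6 : k * 2 * (a + b + 1) ≤ (-1) * 2 * (a + b + 1) := by
      gcongr
      omega
    omega
  · rw [hk] at h5
    apply h
    omega
  · have h6 : 1 * 2 * ((a : ℤ) + b + 1) ≤ k * 2 * (a + b + 1) := by
      gcongr
      omega
    omega

theorem int_mon_zero {a b : Fin n → ℕ} (h : a ≠ b) : ∫ u, mon a b u ∂(sig n) = 0 := by
  obtain ⟨i, hi⟩ := Function.ne_iff.mp h
  obtain ⟨c, hc⟩ := exists_circle hi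
  have h1 := integral_sphMap (rot (Function.update (fun _ => (1 : Circle)) i c)) _ (mon_cont a b)
  have h2 : ∀ u, mon a b (sphMap (rot (Function.update (fun _ => (1 : Circle)) i c)) u) =
      ((c : ℂ) ^ a i * conj (c : ℂ) ^ b i) * mon a b u := by
    intro u
    unfold mon
    have h3 : ∀ j, (sphMap (rot (Function.update (fun _ => (1 : Circle)) i c)) u : Cn n) j ^ a j *
        conj ((sphMap (rot (Function.update (fun _ => (1 : Circle)) i c)) u : Cn n) j) ^ b j =
        (if j = i then ((c : ℂ) ^ a i * conj (c : ℂ) ^ b i) else 1) *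
          ((u : Cn n) j ^ a j * conj ((u : Cn n) j) ^ b j) := by
      intro j
      change (rot _ (u : Cn n)) j ^ a j * conj ((rot _ (u : Cn n)) j) ^ b j = _
      rw [rot_apply]
      by_cases hj : j = i
      · subst hj
        simp only [Function.update_self, if_true, map_mul]
        ring
      · simp only [Function.update_of_ne hj, if_neg hj, Circle.coe_one, one_mul]
    rw [Finset.prod_congr rfl fun j _ => h3 j, Finset.prod_mul_distrib]
    congr 1
    simp
  simp_rw [h2] at h1
  rw [integral_const_mul] at h1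
  have h4 : ((c : ℂ) ^ a i * conj (c : ℂ) ^ b i - 1) * ∫ u, mon a b u ∂(sig n) = 0 := by
    linear_combination h1
  rcases mul_eq_zero.mp h4 with h5 | h5
  · exact absurd (sub_eq_zero.mp h5) hc
  · exact h5

end Pool.Agent.V1173.Herg
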