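import Pool.Agent.V1173.Herg.Pair

/-!
# A real hyperplane is a null set

Helper file for `MP_ab521b_an`.
-/

open MeasureTheory Set Metric Filter Topology
open scoped Pointwise ENNReal ComplexConjugate

namespace Pool.Agent.V1173.Herg

variable {n : ℕ}

/-! ### polynomials in `z` and `conj z` -/

/-- polynomials in `z`, `conj z` of degree at most `D` in each -/
noncomputable def PP (D : ℕ) : Submodule ℂ (ℂ → ℂ) :=
  Submodule.span ℂ {f | ∃ a c : ℕ, a ≤ D ∧ c ≤ D ∧ f = fun z => z ^ a * conj z ^ c}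

theorem pp_mon {D a c : ℕ} (ha : a ≤ D) (hc : c ≤ D) : (fun z : ℂ => z ^ a * conj z ^ c) ∈ PP D :=
  Submodule.subset_span ⟨a, c, ha, hc, rfl⟩

theorem pp_mul {D E : ℕ} {f g : ℂ → ℂ} (hf : f ∈ PP D) (hg : g ∈ PP E) : f * g ∈ PP (D + E) := by
  unfold PP at hf hg
  induction hf using Submodule.span_induction with
  | mem f hf =>
    obtain ⟨a, c, ha, hc, rfl⟩ := hf
    induction hg using Submodule.span_induction with
    | mem g hg =>
      obtain ⟨a', c', ha', hc', rfl⟩ := hg
      have : (fun z : ℂ => z ^ a * conj z ^ c) * (fun z : ℂ => z ^ a' * conj z ^ c') =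
          fun z : ℂ => z ^ (a + a') * conj z ^ (c + c') := by
        funext z
        simp only [Pi.mul_apply]
        ring
      rw [this]
      exact pp_mon (by omega) (by omega)
    | zero => rw [mul_zero]; exact Submodule.zero_mem _
    | add g g' _ _ h h' => rw [mul_add]; exact Submodule.add_mem _ h h'
    | smul x g _ h => rw [mul_smul_comm]; exact Submodule.smul_mem _ _ h
  | zero => rw [zero_mul]; exact Submodule.zero_mem _
  | add f f' _ _ h h' => rw [add_mul]; exact Submodule.add_mem _ h h'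
  | smul x f _ h => rw [smul_mul_assoc]; exact Submodule.smul_mem _ _ h

theorem pp_pow {D : ℕ} {f : ℂ → ℂ} (hf : f ∈ PP D) (j : ℕ) : f ^ j ∈ PP (j * D) := by
  induction j with
  | zero =>
    have : (f ^ 0 : ℂ → ℂ) = fun z => z ^ 0 * conj z ^ 0 := by
      funext z
      simp
    rw [this]
    exact pp_mon (by omega) (by omega)
  | succ j ih =>
    rw [pow_succ, Nat.succ_mul]
    exact pp_mul ih hf

/-- `1 - x²` -/
noncomputable def qx (z : ℂ) : ℂ := 1 - ((z.re ^ 2 : ℝ) : ℂ)
/-- `1 - |z|²` -/
noncomputable def qr (z : ℂ) : ℂ := 1 - ((‖z‖ ^ 2 : ℝ) : ℂ)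

theorem qx_mem : qx ∈ PP 2 := by
  have h : qx = (fun z : ℂ => z ^ 0 * conj z ^ 0) - (1 / 4 : ℂ) • (fun z : ℂ => z ^ 2 * conj z ^ 0) -
      (1 / 2 : ℂ) • (fun z : ℂ => z ^ 1 * conj z ^ 1) -
      (1 / 4 : ℂ) • (fun z : ℂ => z ^ 0 * conj z ^ 2) := by
    funext z
    simp only [qx, Pi.sub_apply, Pi.smul_apply, smul_eq_mul]
    have h1 : (z.re : ℂ) = (z + conj z) / 2 := by
      rw [Complex.add_conj]
      push_cast
      ring
    push_cast
    rw [h1]
    ring
  rw [h]
  refine Submodule.sub_mem _ (Submodule.sub_mem _ (Submodule.sub_mem _ ?_ ?_) ?_) ?_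
  · exact pp_mon (by omega) (by omega)
  · exact Submodule.smul_mem _ _ (pp_mon (by omega) (by omega))
  · exact Submodule.smul_mem _ _ (pp_mon (by omega) (by omega))
  · exact Submodule.smul_mem _ _ (pp_mon (by omega) (by omega))

theorem qr_mem : qr ∈ PP 1 := by
  have h : qr = (fun z : ℂ => z ^ 0 * conj z ^ 0) - (fun z : ℂ => z ^ 1 * conj z ^ 1) := by
    funext z
    simp only [qr, Pi.sub_apply, pow_one, pow_zero, mul_one]
    rw [Complex.mul_conj, Complex.normSq_eq_norm_sq]
  rw [h]
  exact Submodule.sub_mem _ (pp_mon (by omega) (by omega)) (pp_mon (by omega) (by omega))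

/-! ### the kernel -/

/-- the truncated density -/
noncomputable def GD (A B : ℕ → ℂ) (D : ℕ) (z : ℂ) : ℂ :=
  ∑ d ∈ Finset.range (D + 1), ((A d + B d * ((‖z‖ ^ 2 : ℝ) : ℂ)) * conj z ^ d +
    (if d = 0 then 0 else conj ((A d + B d * ((‖z‖ ^ 2 : ℝ) : ℂ)) * conj z ^ d)))

theorem GD_cont (A B : ℕ → ℂ) (D : ℕ) : Continuous (GD A B D) := by
  unfold GD
  apply continuous_finsetSum
  intro d _
  have h1 : Continuous fun z : ℂ => (A d + B d * ((‖z‖ ^ 2 : ℝ) : ℂ)) * conj z ^ d := by
    have := Complex.continuous_conj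
    fun_prop
  apply h1.add
  split_ifs
  · exact continuous_const
  · exact Complex.continuous_conj.comp h1

theorem int_pow_sig (i : Fin n) (p q : ℕ) :
    ∫ u, (u : Cn n) i ^ p * conj ((u : Cn n) i) ^ q ∂(sig n) = if p = q then (bet i p : ℂ) else 0 := by
  simp_rw [← mon_single]
  split_ifs with h
  · subst h
    exact bet_eq i p
  · apply int_mon_zero
    intro heq
    exact h (Pi.single_injective i heq)

/-- the identity for polynomials, abstract form -/
theorem poly_identity' {μ σ : Measure (Sph n)} [IsProbabilityMeasure μ] [IsProbabilityMeasure σ]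
    {z : Sph n → ℂ} (hz : Continuous z) {be : ℕ → ℝ}
    (hσ : ∀ p q : ℕ, ∫ u, z u ^ p * conj (z u) ^ q ∂σ = if p = q then (be p : ℂ) else 0)
    {A B : ℕ → ℂ} (hAB : ∀ d b : ℕ, ∫ u, z u ^ (d + b) * conj (z u) ^ b ∂μ =
      A d * be (d + b) + B d * be (d + b + 1)) {D : ℕ} {f : ℂ → ℂ} (hf : f ∈ PP D) :
    Continuous f ∧ ∫ u, f (z u) ∂μ = ∫ u, f (z u) * GD A B D (z u) ∂σ := by
  unfold PP at hf
  have hGc : Continuous fun u : Sph n => GD A B D (z u) := (GD_cont A B D).comp hz
  induction hf using Submodule.span_induction with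
  | zero => exact ⟨continuous_const, by simp⟩
  | add f g _ _ hf hg =>
    refine ⟨hf.1.add hg.1, ?_⟩
    have c1 : Continuous fun u : Sph n => f (z u) := hf.1.comp hz
    have c2 : Continuous fun u : Sph n => g (z u) := hg.1.comp hz
    have i1 : Integrable (fun u : Sph n => f (z u) * GD A B D (z u)) σ := cont_int _ (c1.mul hGc)
    have i2 : Integrable (fun u : Sph n => g (z u) * GD A B D (z u)) σ := cont_int _ (c2.mul hGc)
    simp only [Pi.add_apply, add_mul]
    rw [integral_add (cont_int _ c1) (cont_int _ c2), integral_add i1 i2, hf.2, hg.2]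
  | smul x f _ hf =>
    refine ⟨hf.1.const_smul x, ?_⟩
    simp only [Pi.smul_apply, smul_eq_mul, mul_assoc]
    rw [integral_const_mul, integral_const_mul, hf.2]
  | mem f hf =>
    obtain ⟨a, c, ha, hc, rfl⟩ := hf
    refine ⟨by have := Complex.continuous_conj; fun_prop, ?_⟩
    -- right hand side
    have hR : ∫ u, (z u ^ a * conj (z u) ^ c) * GD A B D (z u) ∂σ =
        ∑ d ∈ Finset.range (D + 1), ((if a = c + d then A d * be a + B d * be (a + 1) else 0) +
          (if d = 0 then 0 else
            if a + d = c then conj (A d) * be c + conj (B d) * be (c + 1) else 0)) := by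
      unfold GD
      simp_rw [Finset.mul_sum]
      have e1 : ∀ (d : ℕ) (u : Sph n), (z u ^ a * conj (z u) ^ c) *
          (((A d + B d * ((‖z u‖ ^ 2 : ℝ) : ℂ)) * conj (z u) ^ d) +
          (if d = 0 then 0 else conj ((A d + B d * ((‖z u‖ ^ 2 : ℝ) : ℂ)) *
            conj (z u) ^ d))) =
          (A d * (z u ^ a * conj (z u) ^ (c + d)) +
            B d * (z u ^ (a + 1) * conj (z u) ^ (c + d + 1))) +
          (if d = 0 then (0 : ℂ) else 1) * (conj (A d) * (z u ^ (a + d) *
              conj (z u) ^ c) + conj (B d) * (z u ^ (a + d + 1) *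
              conj (z u) ^ (c + 1))) := by
        intro d u
        have h1 : ((‖z u‖ ^ 2 : ℝ) : ℂ) = z u * conj (z u) := by
          rw [Complex.mul_conj, Complex.normSq_eq_norm_sq]
        rw [h1]
        split_ifs
        · ring
        · simp only [map_mul, map_add, map_pow, Complex.conj_conj]
          ring
      simp_rw [e1]
      have cI : ∀ p q : ℕ, Integrable (fun u : Sph n => z u ^ p * conj (z u) ^ q) σ := by
        intro p q
        apply cont_int
        exact (hz.pow _).mul ((Complex.continuous_conj.comp hz).pow _)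
      have cI1 : ∀ d : ℕ, Integrable (fun u : Sph n =>
          (A d * (z u ^ a * conj (z u) ^ (c + d)) +
            B d * (z u ^ (a + 1) * conj (z u) ^ (c + d + 1)))) σ :=
        fun d => ((cI _ _).const_mul _).add ((cI _ _).const_mul _)
      have cI2' : ∀ d : ℕ, Integrable (fun u : Sph n =>
          (conj (A d) * (z u ^ (a + d) * conj (z u) ^ c) + conj (B d) * (z u ^ (a + d + 1) *
              conj (z u) ^ (c + 1)))) σ :=
        fun d => ((cI _ _).const_mul _).add ((cI _ _).const_mul _)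
      have cI2 : ∀ d : ℕ, Integrable (fun u : Sph n =>
          (if d = 0 then (0 : ℂ) else 1) * (conj (A d) * (z u ^ (a + d) * conj (z u) ^ c) +
            conj (B d) * (z u ^ (a + d + 1) * conj (z u) ^ (c + 1)))) σ :=
        fun d => (cI2' d).const_mul _
      rw [integral_finsetSum _ fun d _ => by exact (cI1 d).add (cI2 d)]
      apply Finset.sum_congr rfl
      intro d _
      rw [integral_add (cI1 d) (cI2 d), integral_const_mul, integral_add ((cI _ _).const_mul _)
        ((cI _ _).const_mul _), integral_add ((cI _ _).const_mul _) ((cI _ _).const_mul _),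
        integral_const_mul, integral_const_mul, integral_const_mul, integral_const_mul,
        hσ, hσ, hσ, hσ]
      congr 1
      · by_cases h : a = c + d
        · rw [if_pos h, if_pos (by omega), if_pos h]
        · rw [if_neg h, if_neg (by omega), if_neg h]
          ring
      · by_cases h0 : d = 0
        · rw [if_pos h0, if_pos h0]
          ring
        · rw [if_neg h0, if_neg h0]
          by_cases h : a + d = c
          · rw [if_pos h, if_pos (by omega), if_pos h]
            subst h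
            ring
          · rw [if_neg h, if_neg (by omega), if_neg h]
            ring
    simp only
    rw [hR]
    rcases le_or_gt c a with hca | hca
    · obtain ⟨e, rfl⟩ := Nat.exists_eq_add_of_le hca
      have hm : ∫ u, z u ^ (c + e) * conj (z u) ^ c ∂μ =
          A e * be (c + e) + B e * be (c + e + 1) := by
        have := hAB e c
        rw [add_comm c e]
        exact this
      rw [hm, Finset.sum_eq_single e]
      · rw [if_pos rfl]
        by_cases h0 : e = 0
        · rw [if_pos h0]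
          ring
        · rw [if_neg h0, if_neg (by omega)]
          ring
      · intro d _ hd
        rw [if_neg (by omega)]
        by_cases h0 : d = 0
        · rw [if_pos h0]
          ring
        · rw [if_neg h0, if_neg (by omega)]
          ring
      · intro h
        exfalso
        apply h
        rw [Finset.mem_range]
        omega
    · obtain ⟨e, rfl⟩ := Nat.exists_eq_add_of_le hca.le
      have he : e ≠ 0 := by omega
      have hm : ∫ u, z u ^ a * conj (z u) ^ (a + e) ∂μ =
          conj (A e) * be (a + e) + conj (B e) * be (a + e + 1) := by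
        have h1 := hAB e a
        have h2 : ∫ u, z u ^ a * conj (z u) ^ (a + e) ∂μ =
            conj (∫ u, z u ^ (e + a) * conj (z u) ^ a ∂μ) := by
          rw [← integral_conj]
          apply integral_congr_ae
          filter_upwards with u
          simp only [map_mul, map_pow, Complex.conj_conj]
          rw [add_comm a e]
          ring
        rw [h2, h1, add_comm e a]
        simp only [map_add, map_mul, Complex.conj_ofReal]
      rw [hm, Finset.sum_eq_single e]
      · rw [if_neg (by omega), if_neg he, if_pos rfl]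
        ring
      · intro d _ hd
        rw [if_neg (by omega)]
        by_cases h0 : d = 0
        · rw [if_pos h0]
          ring
        · rw [if_neg h0, if_neg (by omega)]
          ring
      · intro h
        exfalso
        apply h
        rw [Finset.mem_range]
        omega

/-- the identity for polynomials -/
theorem poly_identity (hn : 2 ≤ n) (i : Fin n) {μ : Measure (Sph n)} [IsProbabilityMeasure μ]
    {A B : ℕ → ℂ} (hAB : ∀ d b : ℕ, ∫ u, mon (Pi.single i (d + b)) (Pi.single i b) u ∂μ =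
      A d * bet i (d + b) + B d * bet i (d + b + 1)) {D : ℕ} {f : ℂ → ℂ} (hf : f ∈ PP D) :
    ∫ u : Sph n, f ((u : Cn n) i) ∂μ =
      ∫ u : Sph n, f ((u : Cn n) i) * GD A B D ((u : Cn n) i) ∂(sig n) := by
  have := sig_prob (n := n) (by omega)
  refine (poly_identity' (z := fun u : Sph n => (u : Cn n) i) (be := bet i) (coord_cont i)
    (fun p q => int_pow_sig i p q) (fun d b => ?_) hf).2
  have := hAB d b
  simp_rw [mon_single] at this
  exact this

/-! ### bounds -/

theorem one_sub_mul_pow {t : ℝ} (h0 : 0 ≤ t) (h1 : t ≤ 1) (e : ℕ) : (1 - t) * t ^ e ≤ 1 / (e + 1) := by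
  rw [le_div_iff₀ (by positivity)]
  have h2 : ((e : ℝ) + 1) * t ^ e ≤ ∑ k ∈ Finset.range (e + 1), t ^ k := by
    calc ((e : ℝ) + 1) * t ^ e = ∑ _k ∈ Finset.range (e + 1), t ^ e := by
          rw [Finset.sum_const, Finset.card_range, nsmul_eq_mul]
          push_cast
          ring
      _ ≤ _ := by
        apply Finset.sum_le_sum
        intro k hk
        exact pow_le_pow_of_le_one h0 h1 (by have := Finset.mem_range.mp hk; omega)
  have h3 : (∑ k ∈ Finset.range (e + 1), t ^ k) * (1 - t) = 1 - t ^ (e + 1) := by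
    have := geom_sum_mul_neg t (e + 1)
    exact this
  have h4 : 0 ≤ t ^ (e + 1) := by positivity
  have h5 : 0 ≤ 1 - t := by linarith
  calc (1 - t) * t ^ e * (e + 1) = (((e : ℝ) + 1) * t ^ e) * (1 - t) := by ring
    _ ≤ (∑ k ∈ Finset.range (e + 1), t ^ k) * (1 - t) := by gcongr
    _ = 1 - t ^ (e + 1) := h3
    _ ≤ 1 := by linarith

theorem pow_bound {t : ℝ} (h0 : 0 ≤ t) (h1 : t ≤ 1) {N : ℕ} (hN : 0 < N) (d : ℕ) :
    (1 - t ^ 2) ^ N * t ^ d ≤ (2 * N) ^ N / (d + 1) ^ N := by
  set e := d / N with he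
  have h2 : e * N ≤ d := Nat.div_mul_le_self d N
  have h3 : d + 1 ≤ N * (e + 1) := by
    have := Nat.lt_mul_div_succ d hN
    rw [← he] at this
    omega
  have h3' : (d + 1 : ℝ) ≤ N * (e + 1) := by exact_mod_cast h3
  have h4 : t ^ d ≤ (t ^ e) ^ N := by
    rw [← pow_mul]
    exact pow_le_pow_of_le_one h0 h1 h2
  have h5 : 1 - t ^ 2 ≤ 2 * (1 - t) := by nlinarith
  have h6 : 0 ≤ 1 - t ^ 2 := by nlinarith
  have h7 := one_sub_mul_pow h0 h1 e
  have h8 : (0 : ℝ) ≤ 1 - t := by linarith
  have hN' : (0 : ℝ) < N := by exact_mod_cast hN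
  calc (1 - t ^ 2) ^ N * t ^ d ≤ (2 * (1 - t)) ^ N * (t ^ e) ^ N := by gcongr
    _ = (2 * ((1 - t) * t ^ e)) ^ N := by rw [← mul_pow]; ring
    _ ≤ (2 * (1 / (e + 1))) ^ N := by gcongr
    _ ≤ (2 * (N / (d + 1))) ^ N := by
      have h10 : (1 : ℝ) / (e + 1) ≤ N / (d + 1) := by
        rw [div_le_div_iff₀ (by positivity) (by positivity)]
        linarith
      gcongr
    _ = _ := by rw [← div_pow]; ring

theorem GD_bound (A B : ℕ → ℂ) {C : ℝ} (hC : 0 ≤ C) {M : ℕ} (hA : ∀ d : ℕ, ‖A d‖ ≤ C * (d + 1) ^ M)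
    (hB : ∀ d : ℕ, ‖B d‖ ≤ C * (d + 1) ^ M) :
    ∃ K : ℝ, 0 ≤ K ∧ ∀ (D : ℕ) (z : ℂ), ‖z‖ ≤ 1 → ‖qr z ^ (M + 2) * GD A B D z‖ ≤ K := by
  have hs : Summable fun d : ℕ => (1 : ℝ) / ((d : ℝ) + 1) ^ 2 := by
    have := (summable_nat_add_iff 1).mpr (Real.summable_one_div_nat_pow.mpr (one_lt_two))
    refine this.congr fun d => ?_
    push_cast
    rfl
  set S := ∑' d : ℕ, (1 : ℝ) / ((d : ℝ) + 1) ^ 2
  refine ⟨4 * C * (2 * (M + 2)) ^ (M + 2) * S, ?_, ?_⟩
  · have : 0 ≤ S := tsum_nonneg fun d => by positivity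
    positivity
  · intro D z hz
    have hq : ‖qr z‖ = 1 - ‖z‖ ^ 2 := by
      have h1 : qr z = ((1 - ‖z‖ ^ 2 : ℝ) : ℂ) := by
        unfold qr
        push_cast
        rfl
      rw [h1, Complex.norm_real, Real.norm_eq_abs, abs_of_nonneg]
      nlinarith [norm_nonneg z]
    have hterm : ∀ d : ℕ, ‖(A d + B d * ((‖z‖ ^ 2 : ℝ) : ℂ)) * conj z ^ d‖ ≤
        (2 * C * (d + 1) ^ M) * ‖z‖ ^ d := by
      intro d
      rw [norm_mul, norm_pow, RCLike.norm_conj]
      have h1 : ‖A d + B d * ((‖z‖ ^ 2 : ℝ) : ℂ)‖ ≤ 2 * C * (d + 1) ^ M := by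
        refine (norm_add_le _ _).trans ?_
        rw [norm_mul, Complex.norm_real, Real.norm_eq_abs, abs_of_nonneg (by positivity)]
        have h2 : ‖B d‖ * ‖z‖ ^ 2 ≤ C * (d + 1) ^ M * 1 := by
          have := hB d
          have h3 : ‖z‖ ^ 2 ≤ 1 := pow_le_one₀ (norm_nonneg _) hz
          gcongr
        have := hA d
        linarith
      gcongr
    rw [norm_mul, norm_pow, hq]
    have h6 : 0 ≤ 1 - ‖z‖ ^ 2 := by nlinarith [norm_nonneg z]
    calc (1 - ‖z‖ ^ 2) ^ (M + 2) * ‖GD A B D z‖
        ≤ (1 - ‖z‖ ^ 2) ^ (M + 2) * ∑ d ∈ Finset.range (D + 1),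
            2 * ((2 * C * (d + 1) ^ M) * ‖z‖ ^ d) := by
          gcongr
          unfold GD
          refine (norm_sum_le _ _).trans (Finset.sum_le_sum fun d _ => ?_)
          refine (norm_add_le _ _).trans ?_
          have h1 := hterm d
          have h2 : ‖(if d = 0 then (0 : ℂ) else conj ((A d + B d * ((‖z‖ ^ 2 : ℝ) : ℂ)) *
              conj z ^ d))‖ ≤ (2 * C * (d + 1) ^ M) * ‖z‖ ^ d := by
            split_ifs
            · rw [norm_zero]
              positivity
            · rw [RCLike.norm_conj]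
              exact h1
          linarith
      _ = ∑ d ∈ Finset.range (D + 1), 4 * C * (d + 1) ^ M * ((1 - ‖z‖ ^ 2) ^ (M + 2) * ‖z‖ ^ d) := by
          rw [Finset.mul_sum]
          apply Finset.sum_congr rfl
          intro d _
          ring
      _ ≤ ∑ d ∈ Finset.range (D + 1), 4 * C * (2 * (M + 2)) ^ (M + 2) * (1 / ((d : ℝ) + 1) ^ 2) := by
          apply Finset.sum_le_sum
          intro d _
          have h1 := pow_bound (norm_nonneg z) hz (N := M + 2) (by omega) d
          push_cast at h1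
          calc 4 * C * (d + 1) ^ M * ((1 - ‖z‖ ^ 2) ^ (M + 2) * ‖z‖ ^ d)
              ≤ 4 * C * (d + 1) ^ M * ((2 * (M + 2)) ^ (M + 2) / (d + 1) ^ (M + 2)) := by gcongr
            _ = _ := by
              rw [pow_add (d + 1 : ℝ) M 2]
              field_simp
      _ = 4 * C * (2 * (M + 2)) ^ (M + 2) * ∑ d ∈ Finset.range (D + 1), (1 / ((d : ℝ) + 1) ^ 2) := by
          rw [Finset.mul_sum]
      _ ≤ _ := by
          gcongr
          exact hs.sum_le_tsum _ fun d _ => by positivity

/-- The real hyperplane `Re u_i = 0` is a null set of every probability measure in the closure. -/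
theorem null_hyper (hn : 2 ≤ n) {i j : Fin n} (hij : i ≠ j) {μ : Measure (Sph n)}
    [IsProbabilityMeasure μ] (hμ : InClosure μ) : μ {u : Sph n | ((u : Cn n) i).re = 0} = 0 := by
  have := sig_prob (n := n) (by omega)
  obtain ⟨A, B, hAB, hb⟩ := moments hn hij hμ
  obtain ⟨K, hK, hKb⟩ := GD_bound A B (C := 2 * n * (n + 1) * 2 ^ n) (M := n + 2) (by positivity)
    (fun d => (hb d).1) (fun d => (hb d).2)
  set N := n + 2 + 2 with hN
  have hre : Continuous fun u : Sph n => ((u : Cn n) i).re := Complex.continuous_re.comp (coord_cont i)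
  have hnm : Continuous fun u : Sph n => ‖(u : Cn n) i‖ := norm_coord_cont i
  have hre1 : ∀ u : Sph n, ((u : Cn n) i).re ^ 2 ≤ 1 := by
    intro u
    have h1 := Complex.abs_re_le_norm ((u : Cn n) i)
    have h2 := coord_le u i
    have h3 : |((u : Cn n) i).re| ≤ 1 := h1.trans h2
    rw [← sq_abs]
    exact pow_le_one₀ (abs_nonneg _) h3
  have hnm1 : ∀ u : Sph n, ‖(u : Cn n) i‖ ^ 2 ≤ 1 := fun u =>
    pow_le_one₀ (norm_nonneg _) (coord_le u i)
  -- the inequality
  have hineq : ∀ k : ℕ, ∫ u, (1 - ((u : Cn n) i).re ^ 2) ^ k * (1 - ‖(u : Cn n) i‖ ^ 2) ^ N ∂μ ≤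
      K * ∫ u, (1 - ((u : Cn n) i).re ^ 2) ^ k ∂(sig n) := by
    intro k
    have hmem := pp_mul (pp_pow qx_mem k) (pp_pow qr_mem N)
    have h1 := poly_identity hn i hAB hmem
    have h2 : ∀ u : Sph n, (qx ^ k * qr ^ N) ((u : Cn n) i) =
        (((1 - ((u : Cn n) i).re ^ 2) ^ k * (1 - ‖(u : Cn n) i‖ ^ 2) ^ N : ℝ) : ℂ) := by
      intro u
      simp only [Pi.mul_apply, Pi.pow_apply, qx, qr]
      push_cast
      rfl
    have h3 : ∫ u, (qx ^ k * qr ^ N) ((u : Cn n) i) ∂μ =
        ((∫ u, (1 - ((u : Cn n) i).re ^ 2) ^ k * (1 - ‖(u : Cn n) i‖ ^ 2) ^ N ∂μ : ℝ) : ℂ) := by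
      simp_rw [h2]
      exact integral_ofReal
    have h4 : ‖∫ u, (qx ^ k * qr ^ N) ((u : Cn n) i) * GD A B (k * 2 + N * 1) ((u : Cn n) i)
        ∂(sig n)‖ ≤ ∫ u, K * (1 - ((u : Cn n) i).re ^ 2) ^ k ∂(sig n) := by
      apply norm_integral_le_of_norm_le
      · apply cont_int
        fun_prop
      · filter_upwards with u
        have h5 := hKb (k * 2 + N * 1) ((u : Cn n) i) (coord_le u i)
        have h6 : ‖qx ((u : Cn n) i) ^ k‖ = (1 - ((u : Cn n) i).re ^ 2) ^ k := by
          have h7 : qx ((u : Cn n) i) = ((1 - ((u : Cn n) i).re ^ 2 : ℝ) : ℂ) := by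
            unfold qx
            push_cast
            rfl
          rw [h7, norm_pow, Complex.norm_real, Real.norm_eq_abs, abs_of_nonneg]
          linarith [hre1 u]
        have h8 : (qx ^ k * qr ^ N) ((u : Cn n) i) * GD A B (k * 2 + N * 1) ((u : Cn n) i) =
            qx ((u : Cn n) i) ^ k * (qr ((u : Cn n) i) ^ N * GD A B (k * 2 + N * 1) ((u : Cn n) i)) := by
          simp only [Pi.mul_apply, Pi.pow_apply]
          ring
        rw [h8, norm_mul, h6, mul_comm K]
        have h9 : 0 ≤ (1 - ((u : Cn n) i).re ^ 2) ^ k := pow_nonneg (by linarith [hre1 u]) _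
        gcongr
    rw [← h1, h3, Complex.norm_real, Real.norm_eq_abs, integral_const_mul] at h4
    exact (le_abs_self _).trans h4
  -- limits
  have hpt : ∀ u : Sph n, Tendsto (fun k : ℕ => (1 - ((u : Cn n) i).re ^ 2) ^ k) atTop
      (𝓝 (if ((u : Cn n) i).re = 0 then 1 else 0)) := by
    intro u
    by_cases h : ((u : Cn n) i).re = 0
    · rw [if_pos h, h]
      simp
    · rw [if_neg h]
      apply tendsto_pow_atTop_nhds_zero_of_lt_one
      · linarith [hre1 u]
      · have : 0 < ((u : Cn n) i).re ^ 2 := by positivity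
        linarith
  have hlimL : Tendsto (fun k : ℕ => ∫ u, (1 - ((u : Cn n) i).re ^ 2) ^ k *
      (1 - ‖(u : Cn n) i‖ ^ 2) ^ N ∂μ) atTop
      (𝓝 (∫ u, (if ((u : Cn n) i).re = 0 then 1 else 0) * (1 - ‖(u : Cn n) i‖ ^ 2) ^ N ∂μ)) := by
    apply tendsto_integral_of_dominated_convergence (fun _ => (1 : ℝ))
    · intro k
      apply Continuous.aestronglyMeasurable
      fun_prop
    · exact integrable_const _
    · intro k
      filter_upwards with u
      have a1 : 0 ≤ 1 - ((u : Cn n) i).re ^ 2 := by linarith [hre1 u]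
      have a2 : 0 ≤ 1 - ‖(u : Cn n) i‖ ^ 2 := by linarith [hnm1 u]
      rw [Real.norm_eq_abs, abs_of_nonneg (by positivity)]
      apply mul_le_one₀ (pow_le_one₀ a1 (by nlinarith [sq_nonneg ((u : Cn n) i).re]))
        (by positivity) (pow_le_one₀ a2 (by nlinarith [sq_nonneg ‖(u : Cn n) i‖]))
    · filter_upwards with u
      exact (hpt u).mul_const _
  have hlimR : Tendsto (fun k : ℕ => ∫ u, (1 - ((u : Cn n) i).re ^ 2) ^ k ∂(sig n)) atTop
      (𝓝 (∫ u : Sph n, (if ((u : Cn n) i).re = 0 then 1 else 0) ∂(sig n))) := by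
    apply tendsto_integral_of_dominated_convergence (fun _ => (1 : ℝ))
    · intro k
      apply Continuous.aestronglyMeasurable
      fun_prop
    · exact integrable_const _
    · intro k
      filter_upwards with u
      have a1 : 0 ≤ 1 - ((u : Cn n) i).re ^ 2 := by linarith [hre1 u]
      rw [Real.norm_eq_abs, abs_of_nonneg (by positivity)]
      exact pow_le_one₀ a1 (by nlinarith [sq_nonneg ((u : Cn n) i).re])
    · filter_upwards with u
      exact hpt u
  -- the hyperplane is null for the surface measure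
  have hsig0 : sig n {u : Sph n | ((u : Cn n) i).re = 0} = 0 := by
    set V : Submodule ℝ (Cn n) :=
      { carrier := {x | (x i).re = 0}
        add_mem' := by
          intro x y hx hy
          simp only [Set.mem_ofPred_eq, PiLp.add_apply, Complex.add_re] at *
          rw [hx, hy, add_zero]
        zero_mem' := by simp
        smul_mem' := by
          intro c x hx
          simp only [Set.mem_ofPred_eq, PiLp.smul_apply, Complex.smul_re, smul_eq_mul] at *
          rw [hx, mul_zero] } with hV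
    have hVt : V ≠ ⊤ := by
      intro h
      have h1 : (EuclideanSpace.single i (1 : ℂ) : Cn n) ∈ V := by rw [h]; trivial
      have h2 : ((EuclideanSpace.single i (1 : ℂ) : Cn n) i).re = 0 := h1
      simp at h2
    exact sig_hyper V hVt
  have hR0 : ∫ u : Sph n, (if ((u : Cn n) i).re = 0 then (1 : ℝ) else 0) ∂(sig n) = 0 := by
    apply integral_eq_zero_of_ae
    have h1 : ∀ᵐ u : Sph n ∂(sig n), ¬ ((u : Cn n) i).re = 0 := by
      rw [ae_iff]
      simpa using hsig0
    filter_upwards [h1] with u hu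
    rw [if_neg hu]
    rfl
  rw [hR0] at hlimR
  have hfin : ∫ u, (if ((u : Cn n) i).re = 0 then (1 : ℝ) else 0) * (1 - ‖(u : Cn n) i‖ ^ 2) ^ N ∂μ ≤ 0 := by
    have := le_of_tendsto_of_tendsto' hlimL (hlimR.const_mul K) hineq
    simpa using this
  have hms : MeasurableSet {u : Sph n | ((u : Cn n) i).re = 0} :=
    (isClosed_eq hre continuous_const).measurableSet
  have hmeas : Measurable fun u : Sph n => (if ((u : Cn n) i).re = 0 then (1 : ℝ) else 0) :=
    Measurable.ite hms measurable_const measurable_const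
  have hae : ∀ᵐ u : Sph n ∂μ, (if ((u : Cn n) i).re = 0 then (1 : ℝ) else 0) * (1 - ‖(u : Cn n) i‖ ^ 2) ^ N = 0 := by
    have hnn : ∀ u : Sph n, 0 ≤ (if ((u : Cn n) i).re = 0 then (1 : ℝ) else 0) *
        (1 - ‖(u : Cn n) i‖ ^ 2) ^ N := by
      intro u
      have a2 : 0 ≤ 1 - ‖(u : Cn n) i‖ ^ 2 := by linarith [hnm1 u]
      split_ifs
      · positivity
      · simp
    have hint : Integrable (fun u : Sph n => (if ((u : Cn n) i).re = 0 then (1 : ℝ) else 0) *
        (1 - ‖(u : Cn n) i‖ ^ 2) ^ N) μ := by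
      apply Integrable.mono' (integrable_const (1 : ℝ))
      · apply Measurable.aestronglyMeasurable
        apply hmeas.mul
        exact (by fun_prop : Continuous fun u : Sph n => (1 - ‖(u : Cn n) i‖ ^ 2) ^ N).measurable
      · filter_upwards with u
        have a2 : 0 ≤ 1 - ‖(u : Cn n) i‖ ^ 2 := by linarith [hnm1 u]
        rw [Real.norm_eq_abs, abs_of_nonneg (hnn u)]
        have a3 : (1 - ‖(u : Cn n) i‖ ^ 2) ^ N ≤ 1 :=
          pow_le_one₀ a2 (by nlinarith [sq_nonneg ‖(u : Cn n) i‖])
        split_ifs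
        · simpa using a3
        · simp
    have h0 := le_antisymm hfin (integral_nonneg hnn)
    have := (integral_eq_zero_iff_of_nonneg hnn hint).mp h0
    filter_upwards [this] with u hu
    exact hu
  -- the circle
  have hcirc : μ {u : Sph n | ‖(u : Cn n) i‖ = 1} = 0 := by
    have hmc : MeasurableSet {u : Sph n | ‖(u : Cn n) i‖ = 1} :=
      (isClosed_eq hnm continuous_const).measurableSet
    have h1 : ∀ b : ℕ, μ.real {u : Sph n | ‖(u : Cn n) i‖ = 1} ≤ ‖A 0 * bet i b + B 0 * bet i (b + 1)‖ := by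
      intro b
      have h2 := hAB 0 b
      rw [zero_add] at h2
      have h3 : ∫ u, mon (Pi.single i b) (Pi.single i b) u ∂μ =
          ((∫ u, ‖(u : Cn n) i‖ ^ (2 * b) ∂μ : ℝ) : ℂ) := by
        rw [← integral_complex_ofReal]
        apply integral_congr_ae
        filter_upwards with u
        rw [mon_single, norm_pow_two]
      rw [← h2, h3, Complex.norm_real, Real.norm_eq_abs]
      refine le_trans ?_ (le_abs_self _)
      rw [← integral_indicator_one hmc]
      apply integral_mono
      · exact (integrable_const (1 : ℝ)).indicator hmc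
      · exact cont_int _ (hnm.pow _)
      · intro u
        by_cases hu : ‖(u : Cn n) i‖ = 1
        · simp [indicator, hu]
        · have : (indicator {u : Sph n | ‖(u : Cn n) i‖ = 1} (1 : Sph n → ℝ)) u = 0 := by
            simp [indicator, hu]
          rw [this]
          positivity
    have hb0 : Tendsto (fun b : ℕ => bet i b) atTop (𝓝 0) := by
      have h2 : Tendsto (fun b : ℕ => 1 / ((b : ℝ) + 1)) atTop (𝓝 0) := tendsto_one_div_add_atTop_nhds_zero_nat
      refine squeeze_zero (fun b => (bet_pos hn hij b).le) (fun b => ?_) h2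
      rw [le_div_iff₀ (by positivity)]
      exact bet_le hn hij b
    have hb0c : Tendsto (fun b : ℕ => (bet i b : ℂ)) atTop (𝓝 0) := by
      have := (Complex.continuous_ofReal.tendsto 0).comp hb0
      rw [Complex.ofReal_zero] at this
      exact this
    have h2 : Tendsto (fun b : ℕ => ‖A 0 * bet i b + B 0 * bet i (b + 1)‖) atTop (𝓝 0) := by
      have h3 := (hb0c.const_mul (A 0)).add (((tendsto_add_atTop_iff_nat 1).mpr hb0c).const_mul (B 0))
      have := h3.norm
      simpa using this
    have h3 : μ.real {u : Sph n | ‖(u : Cn n) i‖ = 1} ≤ 0 := ge_of_tendsto' h2 h1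
    have h4 : μ.real {u : Sph n | ‖(u : Cn n) i‖ = 1} = 0 := le_antisymm h3 measureReal_nonneg
    rwa [measureReal_eq_zero_iff] at h4
  -- conclusion
  have h1 : ∀ᵐ u : Sph n ∂μ, ¬ ‖(u : Cn n) i‖ = 1 := by
    rw [ae_iff]
    simpa using hcirc
  have h2 : ∀ᵐ u : Sph n ∂μ, ¬ ((u : Cn n) i).re = 0 := by
    filter_upwards [hae, h1] with u hu hu1 h0
    rw [if_pos h0, one_mul] at hu
    have h3 : 1 - ‖(u : Cn n) i‖ ^ 2 = 0 := pow_eq_zero_iff (by omega) |>.mp hu
    apply hu1
    have h4 : ‖(u : Cn n) i‖ ^ 2 = 1 := by linarith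
    have h5 := norm_nonneg ((u : Cn n) i)
    nlinarith
  rw [ae_iff] at h2
  simpa using h2

end Pool.Agent.V1173.Herg
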