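import Pool.Agent.V1173.Herg.Bet

/-!
# The space `E`, its closure, and the moments of one coordinate

Helper file for `MP_ab521b_an`.
-/

open MeasureTheory Set Metric Filter Topology
open scoped Pointwise ENNReal ComplexConjugate

namespace Pool.Agent.V1173.Herg

variable {n : ℕ}

/-- The generators of `E`: the functions `conj(u_k) u^α` and `u_k conj(u^α)` with `α ≠ 0`. -/
def IsGen (p : C(Sph n, ℂ)) : Prop :=
  ∃ (k : Fin n) (α : Fin n → ℕ), α ≠ 0 ∧
    ((∀ u : Sph n, p u = conj ((u : Cn n) k) * ∏ i, (u : Cn n) i ^ α i) ∨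
      (∀ u : Sph n, p u = (u : Cn n) k * conj (∏ i, (u : Cn n) i ^ α i)))

/-- The space `E`. -/
noncomputable def EE (n : ℕ) : Submodule ℂ C(Sph n, ℂ) := Submodule.span ℂ {p | IsGen p}

/-- `μ` lies in the weak-star closure of `{p dσ : p ∈ E}`. -/
def InClosure (μ : Measure (Sph n)) : Prop :=
  ∀ (s : Finset C(Sph n, ℂ)) (ε : ℝ), 0 < ε → ∃ p ∈ EE n, ∀ φ ∈ s,
    ‖∫ u, φ u ∂μ - ∫ u, φ u * p u ∂(sig n)‖ < ε

/-- annihilators of `E` annihilate the closure -/
theorem ann {μ : Measure (Sph n)} (hμ : InClosure μ) (φ : C(Sph n, ℂ))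
    (h : ∀ p ∈ EE n, ∫ u, φ u * p u ∂(sig n) = 0) : ∫ u, φ u ∂μ = 0 := by
  rw [← norm_le_zero_iff]
  apply le_of_forall_pos_le_add
  intro ε hε
  obtain ⟨p, hp, hp2⟩ := hμ {φ} ε hε
  have := hp2 φ (Finset.mem_singleton_self φ)
  rw [h p hp, sub_zero] at this
  linarith

theorem mon_zero_right (α : Fin n → ℕ) (u : Sph n) : mon α 0 u = ∏ i, (u : Cn n) i ^ α i := by
  simp [mon]

theorem mon_zero_left (α : Fin n → ℕ) (u : Sph n) :
    mon 0 α u = conj (∏ i, (u : Cn n) i ^ α i) := by
  simp [mon, map_prod]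

theorem mon_right_single (k : Fin n) (u : Sph n) : mon 0 (Pi.single k 1) u = conj ((u : Cn n) k) := by
  have h3 : (0 : Fin n → ℕ) = Pi.single k 0 := by simp
  rw [h3, mon_single]
  simp

theorem mon_left_single (k : Fin n) (u : Sph n) : mon (Pi.single k 1) 0 u = (u : Cn n) k := by
  have h3 : (0 : Fin n → ℕ) = Pi.single k 0 := by simp
  rw [h3, mon_single]
  simp

theorem gam_form (hn : 2 ≤ n) (i k : Fin n) :
    ∃ c1 c2 : ℂ, ∀ m, (gam i k m : ℂ) = c1 * bet i m + c2 * bet i (m + 1) := by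
  by_cases hk : k = i
  · subst hk
    exact ⟨0, 1, fun m => by rw [gam_self]; ring⟩
  · refine ⟨1 / ((n : ℂ) - 1), -(1 / ((n : ℂ) - 1)), fun m => ?_⟩
    have h := gam_bet hn (Ne.symm hk) m
    have h1 : ((n : ℂ) - 1) * gam i k m = bet i m - bet i (m + 1) := by exact_mod_cast h
    have h2 : ((n : ℂ) - 1) ≠ 0 := by
      have h3 : ((n : ℝ) - 1) ≠ 0 := by
        have : (2 : ℝ) ≤ n := by exact_mod_cast hn
        linarith
      exact_mod_cast h3
    field_simp
    linear_combination h1

theorem pair_gen (hn : 2 ≤ n) (i : Fin n) (d : ℕ) {p : C(Sph n, ℂ)} (hp : IsGen p) :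
    ∃ c1 c2 : ℂ, ∀ b : ℕ, ∫ u, mon (Pi.single i (d + b)) (Pi.single i b) u * p u ∂(sig n) =
      c1 * bet i (d + b) + c2 * bet i (d + b + 1) := by
  obtain ⟨k, α, hα, h | h⟩ := hp
  · have h1 : ∀ b u, mon (Pi.single i (d + b)) (Pi.single i b) u * p u =
        mon (Pi.single i (d + b) + α) (Pi.single i b + Pi.single k 1) u := by
      intro b u
      rw [mon_mul, h u]
      have h2 : mon α (Pi.single k 1) u = mon (0 + α) (Pi.single k 1 + 0) u := by simp
      rw [h2, mon_mul, mon_right_single, mon_zero_right]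
    simp_rw [h1]
    by_cases hc : d = 0 ∧ α = Pi.single k 1
    · obtain ⟨rfl, rfl⟩ := hc
      obtain ⟨c1, c2, hc⟩ := gam_form hn i k
      refine ⟨c1, c2, fun b => ?_⟩
      rw [zero_add, gam_eq, hc]
    · refine ⟨0, 0, fun b => ?_⟩
      rw [int_mon_zero]
      · ring
      · intro heq
        apply hc
        have h3 : ∀ l, l ≠ i → α l = (Pi.single k 1 : Fin n → ℕ) l := by
          intro l hl
          have := congrFun heq l
          simpa [Pi.single_eq_of_ne hl] using this
        have h4 : d + α i = (Pi.single k 1 : Fin n → ℕ) i := by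
          have := congrFun heq i
          simp only [Pi.add_apply, Pi.single_eq_same] at this
          omega
        by_cases hk : k = i
        · subst hk
          rw [Pi.single_eq_same] at h4
          have h5 : α k ≠ 0 := by
            intro h6
            apply hα
            funext l
            by_cases hl : l = k
            · rw [hl, h6]
              rfl
            · rw [h3 l hl, Pi.single_eq_of_ne hl]
              rfl
          refine ⟨by omega, ?_⟩
          funext l
          by_cases hl : l = k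
          · rw [hl, Pi.single_eq_same]
            omega
          · exact h3 l hl
        · rw [Pi.single_eq_of_ne (Ne.symm hk)] at h4
          refine ⟨by omega, ?_⟩
          funext l
          by_cases hl : l = i
          · rw [hl, Pi.single_eq_of_ne (Ne.symm hk)]
            omega
          · exact h3 l hl
  · have h1 : ∀ b u, mon (Pi.single i (d + b)) (Pi.single i b) u * p u =
        mon (Pi.single i (d + b) + Pi.single k 1) (Pi.single i b + α) u := by
      intro b u
      rw [mon_mul, h u]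
      have h2 : mon (Pi.single k 1) α u = mon (Pi.single k 1 + 0) (0 + α) u := by simp
      rw [h2, mon_mul, mon_left_single, mon_zero_left]
    simp_rw [h1]
    by_cases hc : α = Pi.single i d + Pi.single k 1
    · obtain ⟨c1, c2, hc2⟩ := gam_form hn i k
      refine ⟨c1, c2, fun b => ?_⟩
      have h2 : (Pi.single i b + α : Fin n → ℕ) = Pi.single i (d + b) + Pi.single k 1 := by
        rw [hc, ← add_assoc, ← Pi.single_add, add_comm b d]
      rw [h2, gam_eq, hc2]
    · refine ⟨0, 0, fun b => ?_⟩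
      rw [int_mon_zero]
      · ring
      · intro heq
        apply hc
        rw [add_comm d b, Pi.single_add, add_assoc] at heq
        exact (add_left_cancel heq).symm

theorem pair_E (hn : 2 ≤ n) (i : Fin n) (d : ℕ) {p : C(Sph n, ℂ)} (hp : p ∈ EE n) :
    ∃ c1 c2 : ℂ, ∀ b : ℕ, ∫ u, mon (Pi.single i (d + b)) (Pi.single i b) u * p u ∂(sig n) =
      c1 * bet i (d + b) + c2 * bet i (d + b + 1) := by
  have := sig_prob (n := n) (by omega)
  have hI : ∀ (b : ℕ) (q : C(Sph n, ℂ)),
      Integrable (fun u => mon (Pi.single i (d + b)) (Pi.single i b) u * q u) (sig n) :=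
    fun b q => cont_int _ ((mon_cont _ _).mul q.continuous)
  induction hp using Submodule.span_induction with
  | mem p hp => exact pair_gen hn i d hp
  | zero => exact ⟨0, 0, fun b => by simp⟩
  | add p q _ _ hp hq =>
    obtain ⟨c1, c2, hc⟩ := hp
    obtain ⟨e1, e2, he⟩ := hq
    refine ⟨c1 + e1, c2 + e2, fun b => ?_⟩
    have h1 : ∀ u, mon (Pi.single i (d + b)) (Pi.single i b) u * (p + q) u =
      mon (Pi.single i (d + b)) (Pi.single i b) u * p u +
        mon (Pi.single i (d + b)) (Pi.single i b) u * q u := by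
      intro u
      rw [ContinuousMap.add_apply]
      ring
    simp_rw [h1]
    rw [integral_add (hI b p) (hI b q), hc, he]
    ring
  | smul a p _ hp =>
    obtain ⟨c1, c2, hc⟩ := hp
    refine ⟨a * c1, a * c2, fun b => ?_⟩
    have h1 : ∀ u, mon (Pi.single i (d + b)) (Pi.single i b) u * (a • p) u =
      a * (mon (Pi.single i (d + b)) (Pi.single i b) u * p u) := by
      intro u
      rw [ContinuousMap.smul_apply, smul_eq_mul]
      ring
    simp_rw [h1]
    rw [integral_const_mul, hc]
    ring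

/-! ### the determinant -/

/-- `Δ_d` -/
noncomputable def Dl (i : Fin n) (d : ℕ) : ℝ := bet i d * bet i (d + 2) - bet i (d + 1) ^ 2

theorem Dl_eq (hn : 2 ≤ n) {i j : Fin n} (hij : i ≠ j) (d : ℕ) :
    Dl i d * ((n + d) * (n + d + 1)) = bet i d * bet i (d + 1) * (n - 1) := by
  have h1 := bet_rec hn hij d
  have h2 := bet_rec hn hij (d + 1)
  push_cast at h2
  unfold Dl
  have h3 : bet i (d + 2) * ((n : ℝ) + (d + 1)) = bet i (d + 1) * (d + 1 + 1) := h2
  linear_combination (bet i d * (n + d)) * h3 - (bet i (d + 1) * (n + d + 1)) * h1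

theorem Dl_pos (hn : 2 ≤ n) {i j : Fin n} (hij : i ≠ j) (d : ℕ) : 0 < Dl i d := by
  have h1 := Dl_eq hn hij d
  have h2 := bet_pos hn hij d
  have h3 := bet_pos hn hij (d + 1)
  have h4 : (2 : ℝ) ≤ n := by exact_mod_cast hn
  have h5 : (0 : ℝ) < (n + d) * (n + d + 1) := by positivity
  have h6 : 0 < bet i d * bet i (d + 1) * (n - 1) := by
    apply mul_pos (mul_pos h2 h3)
    linarith
  rw [← h1] at h6
  by_contra hneg
  push Not at hneg
  linarith [mul_nonpos_of_nonpos_of_nonneg hneg h5.le]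

theorem bet_inv (hn : 2 ≤ n) {i j : Fin n} (hij : i ≠ j) (d : ℕ) :
    1 ≤ bet i d * (d + 1) ^ n := by
  induction d with
  | zero => rw [bet_zero hn]; simp
  | succ d ih =>
    have h := bet_rec hn hij d
    have hp := bet_pos hn hij d
    have hp1 := bet_pos hn hij (d + 1)
    have hnd : (0 : ℝ) < n + d := by
      have h4 : (2 : ℝ) ≤ n := by exact_mod_cast hn
      positivity
    -- Bernoulli
    have h1 : (1 : ℝ) + n * (1 / (d + 1)) ≤ (1 + 1 / (d + 1)) ^ n := by
      apply one_add_mul_le_pow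
      have : (0 : ℝ) ≤ 1 / (d + 1) := by positivity
      linarith
    have h2 : (n + d : ℝ) * (d + 1) ^ n ≤ (d + 1) * (d + 2) ^ n := by
      have h3 : ((1 : ℝ) + 1 / (d + 1)) ^ n * (d + 1) ^ n = (d + 2) ^ n := by
        rw [← mul_pow]
        congr 1
        field_simp
        ring
      have h4 : (n + d : ℝ) ≤ (d + 1) * (1 + n * (1 / (d + 1))) := by
        have : (d + 1 : ℝ) * (1 + n * (1 / (d + 1))) = d + 1 + n := by field_simp
        rw [this]
        linarith
      calc (n + d : ℝ) * (d + 1) ^ n ≤ (d + 1) * (1 + n * (1 / (d + 1))) * (d + 1) ^ n := by gcongr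
        _ ≤ (d + 1) * (1 + 1 / (d + 1)) ^ n * (d + 1) ^ n := by gcongr
        _ = (d + 1) * (d + 2) ^ n := by rw [mul_assoc, h3]
    have h5 : bet i (d + 1) = bet i d * (d + 1) / (n + d) := by
      field_simp
      linarith
    rw [h5]
    push_cast
    have h6 : bet i d * (d + 1) / (n + d) * (d + 1 + 1) ^ n =
        bet i d * ((d + 1) * (d + 2) ^ n) / (n + d) := by
      have : (d : ℝ) + 1 + 1 = d + 2 := by ring
      rw [this]
      ring
    rw [h6, le_div_iff₀ hnd, one_mul]
    calc (n + d : ℝ) = (n + d) * 1 := (mul_one _).symm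
      _ ≤ (n + d) * (bet i d * (d + 1) ^ n) := by gcongr
      _ = bet i d * ((n + d) * (d + 1) ^ n) := by ring
      _ ≤ _ := by gcongr

theorem bet_anti (hn : 2 ≤ n) {i j : Fin n} (hij : i ≠ j) (d : ℕ) : bet i (d + 1) ≤ bet i d := by
  have h := bet_rec hn hij d
  have hp := bet_pos hn hij d
  have hp1 := bet_pos hn hij (d + 1)
  have h4 : (2 : ℝ) ≤ n := by exact_mod_cast hn
  have h5 : bet i (d + 1) * (d + 1) ≤ bet i d * (d + 1) := by
    rw [← h]
    exact mul_le_mul_of_nonneg_left (by linarith) hp1.le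
  exact le_of_mul_le_mul_right h5 (by positivity)

theorem bet_le (hn : 2 ≤ n) {i j : Fin n} (hij : i ≠ j) (d : ℕ) : bet i d * (d + 1) ≤ 1 := by
  induction d with
  | zero => rw [bet_zero hn]; simp
  | succ d ih =>
    have h := bet_rec hn hij d
    have hp1 := bet_pos hn hij (d + 1)
    have h4 : (2 : ℝ) ≤ n := by exact_mod_cast hn
    push_cast
    calc bet i (d + 1) * ((d : ℝ) + 1 + 1) ≤ bet i (d + 1) * (n + d) :=
          mul_le_mul_of_nonneg_left (by linarith) hp1.le
      _ = bet i d * (d + 1) := h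
      _ ≤ 1 := ih

/-- The moments of one coordinate. -/
theorem moments (hn : 2 ≤ n) {i j : Fin n} (hij : i ≠ j) {μ : Measure (Sph n)}
    [IsProbabilityMeasure μ] (hμ : InClosure μ) :
    ∃ A B : ℕ → ℂ, (∀ d b : ℕ, ∫ u, mon (Pi.single i (d + b)) (Pi.single i b) u ∂μ =
      A d * bet i (d + b) + B d * bet i (d + b + 1)) ∧
      ∀ d, ‖A d‖ ≤ 2 * n * (n + 1) * 2 ^ n * (d + 1) ^ (n + 2) ∧
        ‖B d‖ ≤ 2 * n * (n + 1) * 2 ^ n * (d + 1) ^ (n + 2) := by
  have := sig_prob (n := n) (by omega)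
  set m : ℕ → ℕ → ℂ := fun d b => ∫ u, mon (Pi.single i (d + b)) (Pi.single i b) u ∂μ with hm
  have hrel : ∀ d b, (Dl i d : ℂ) * m d b =
      ((bet i (d + b) * bet i (d + 2) - bet i (d + b + 1) * bet i (d + 1) : ℝ) : ℂ) * m d 0 +
      ((bet i (d + b + 1) * bet i d - bet i (d + b) * bet i (d + 1) : ℝ) : ℂ) * m d 1 := by
    intro d b
    set X : ℂ := ((bet i (d + b) * bet i (d + 2) - bet i (d + b + 1) * bet i (d + 1) : ℝ) : ℂ) with hX
    set Y : ℂ := ((bet i (d + b + 1) * bet i d - bet i (d + b) * bet i (d + 1) : ℝ) : ℂ) with hY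
    set F : ℕ → C(Sph n, ℂ) := fun b => ⟨mon (Pi.single i (d + b)) (Pi.single i b), mon_cont _ _⟩
      with hF
    set φ : C(Sph n, ℂ) := (Dl i d : ℂ) • F b - X • F 0 - Y • F 1 with hφ
    have hφu : ∀ u, φ u = (Dl i d : ℂ) * F b u - X * F 0 u - Y * F 1 u := fun u => rfl
    have h0 : ∫ u, φ u ∂μ = 0 := by
      apply ann hμ
      intro p hp
      obtain ⟨c1, c2, hc⟩ := pair_E hn i d hp
      have hI : ∀ b, Integrable (fun u => F b u * p u) (sig n) :=
        fun b => cont_int _ ((F b).continuous.mul p.continuous)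
      have h1 : ∀ u, φ u * p u = (Dl i d : ℂ) * (F b u * p u) - X * (F 0 u * p u) -
          Y * (F 1 u * p u) := by
        intro u
        rw [hφu]
        ring
      simp_rw [h1]
      have i1 : Integrable (fun u => (Dl i d : ℂ) * (F b u * p u) - X * (F 0 u * p u)) (sig n) :=
        ((hI b).const_mul _).sub ((hI 0).const_mul _)
      rw [integral_sub i1 ((hI 1).const_mul _), integral_sub ((hI b).const_mul _)
        ((hI 0).const_mul _), integral_const_mul, integral_const_mul, integral_const_mul]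
      have e : ∀ b, ∫ u, F b u * p u ∂(sig n) = c1 * bet i (d + b) + c2 * bet i (d + b + 1) := hc
      rw [e, e, e, hX, hY, Dl]
      push_cast
      ring
    have hI : ∀ b, Integrable (fun u => F b u) μ := fun b => cont_int _ (F b).continuous
    simp_rw [hφu] at h0
    have i1 : Integrable (fun u => (Dl i d : ℂ) * F b u - X * F 0 u) μ :=
      ((hI b).const_mul _).sub ((hI 0).const_mul _)
    rw [integral_sub i1 ((hI 1).const_mul _), integral_sub ((hI b).const_mul _)
        ((hI 0).const_mul _), integral_const_mul, integral_const_mul, integral_const_mul] at h0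
    have e : ∀ b, ∫ u, F b u ∂μ = m d b := fun b => rfl
    rw [e, e, e] at h0
    linear_combination h0
  have hmle : ∀ d b, ‖m d b‖ ≤ 1 := by
    intro d b
    have h1 := norm_integral_le_of_norm_le_const (μ := μ) (C := 1)
      (f := mon (Pi.single i (d + b)) (Pi.single i b)) (Eventually.of_forall fun u => by
        rw [mon_single, norm_mul, norm_pow, norm_pow, RCLike.norm_conj]
        exact mul_le_one₀ (pow_le_one₀ (norm_nonneg _) (coord_le u i)) (by positivity)
          (pow_le_one₀ (norm_nonneg _) (coord_le u i)))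
    simpa using h1
  have hD : ∀ d, (Dl i d : ℂ) ≠ 0 := fun d => by
    have := (Dl_pos hn hij d).ne'
    exact_mod_cast this
  have hn2 : (2 : ℝ) ≤ n := by exact_mod_cast hn
  -- the key numerical bound
  have hnum : ∀ d, 2 * bet i d / Dl i d ≤ 2 * n * (n + 1) * 2 ^ n * (d + 1) ^ (n + 2) := by
    intro d
    have h1 := Dl_eq hn hij d
    have h2 := Dl_pos hn hij d
    have h3 := bet_pos hn hij d
    have h3' := bet_pos hn hij (d + 1)
    have h4 := bet_inv hn hij (d + 1)
    push_cast at h4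
    rw [div_le_iff₀ h2]
    have h5 : (0 : ℝ) < (n + d) * (n + d + 1) := by positivity
    have h6 : Dl i d = bet i d * bet i (d + 1) * (n - 1) / ((n + d) * (n + d + 1)) := by
      field_simp
      linarith
    rw [h6, ← mul_div_assoc, le_div_iff₀ h5]
    have h7 : (n + d : ℝ) ≤ n * (d + 1) := by nlinarith [(Nat.cast_nonneg d : (0 : ℝ) ≤ d)]
    have h8 : (n + d + 1 : ℝ) ≤ (n + 1) * (d + 1) := by nlinarith [(Nat.cast_nonneg d : (0 : ℝ) ≤ d)]
    have h9 : (d + 1 + 1 : ℝ) ^ n ≤ 2 ^ n * (d + 1) ^ n := by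
      rw [← mul_pow]
      gcongr
      linarith [(Nat.cast_nonneg d : (0 : ℝ) ≤ d)]
    have hd0 : (0 : ℝ) ≤ d := Nat.cast_nonneg d
    calc 2 * bet i d * ((n + d) * (n + d + 1)) ≤ 2 * bet i d * ((n * (d + 1)) * ((n + 1) * (d + 1))) := by
          gcongr
      _ = (2 * bet i d * ((n * (d + 1)) * ((n + 1) * (d + 1)))) * 1 := (mul_one _).symm
      _ ≤ (2 * bet i d * ((n * (d + 1)) * ((n + 1) * (d + 1)))) *
          (bet i (d + 1) * (d + 1 + 1) ^ n) := by gcongr
      _ ≤ (2 * bet i d * ((n * (d + 1)) * ((n + 1) * (d + 1)))) *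
          (bet i (d + 1) * (2 ^ n * (d + 1) ^ n)) := by gcongr
      _ = 2 * n * (n + 1) * 2 ^ n * (d + 1) ^ (n + 2) * (bet i d * bet i (d + 1)) * 1 := by ring
      _ ≤ 2 * n * (n + 1) * 2 ^ n * (d + 1) ^ (n + 2) * (bet i d * bet i (d + 1)) * (n - 1) := by
          gcongr
          linarith
      _ = _ := by ring
  refine ⟨fun d => (bet i (d + 2) * m d 0 - bet i (d + 1) * m d 1) / Dl i d,
    fun d => (bet i d * m d 1 - bet i (d + 1) * m d 0) / Dl i d, ?_, ?_⟩
  · intro d b
    change m d b = _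
    have h1 := hrel d b
    have h2 := hD d
    field_simp
    rw [mul_comm, h1]
    push_cast
    ring
  · intro d
    have b0 := bet_pos hn hij d
    have b1 := bet_pos hn hij (d + 1)
    have b2 := bet_pos hn hij (d + 2)
    have a0 := bet_anti hn hij d
    have a1 := bet_anti hn hij (d + 1)
    have hDl := Dl_pos hn hij d
    have hgen : ∀ x y : ℝ, 0 ≤ x → 0 ≤ y → x ≤ bet i d → y ≤ bet i d → ∀ s t : ℂ, ‖s‖ ≤ 1 → ‖t‖ ≤ 1 →
        ‖((x : ℂ) * s - (y : ℂ) * t) / Dl i d‖ ≤ 2 * n * (n + 1) * 2 ^ n * (d + 1) ^ (n + 2) := by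
      intro x y hx hy hx' hy' s t hs ht
      refine le_trans ?_ (hnum d)
      rw [norm_div, Complex.norm_real, Real.norm_eq_abs, abs_of_pos hDl]
      gcongr
      refine (norm_sub_le _ _).trans ?_
      rw [norm_mul, norm_mul, Complex.norm_real, Complex.norm_real, Real.norm_eq_abs,
        Real.norm_eq_abs, abs_of_nonneg hx, abs_of_nonneg hy]
      calc x * ‖s‖ + y * ‖t‖ ≤ bet i d * 1 + bet i d * 1 := by gcongr
        _ = _ := by ring
    exact ⟨hgen _ _ b2.le b1.le (a1.trans a0) a0 _ _ (hmle d 0) (hmle d 1),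
      hgen _ _ b0.le b1.le le_rfl a0 _ _ (hmle d 1) (hmle d 0)⟩

end Pool.Agent.V1173.Herg
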