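import Mathlib

/-!
# The normalised surface measure of the unit sphere of `ℂⁿ`

Helper file for `MP_ab521b_an`.
-/

open MeasureTheory Set Metric Filter Topology
open scoped Pointwise ENNReal ComplexConjugate

namespace Pool.Agent.V1173.Herg

/-- `ℂⁿ` with the Euclidean norm. -/
abbrev Cn (n : ℕ) := EuclideanSpace ℂ (Fin n)

/-- The unit sphere of `ℂⁿ`. -/
abbrev Sph (n : ℕ) := Metric.sphere (0 : Cn n) 1

/-- The normalised surface measure on the unit sphere. -/
noncomputable def sig (n : ℕ) : Measure (Sph n) :=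
  ((volume : Measure (Cn n)).toSphere univ)⁻¹ • (volume : Measure (Cn n)).toSphere

theorem sig_prob {n : ℕ} (hn : 1 ≤ n) : IsProbabilityMeasure (sig n) := by
  have : Nonempty (Fin n) := ⟨⟨0, by omega⟩⟩
  have : Nontrivial (Cn n) := inferInstance
  constructor
  have h1 : (volume : Measure (Cn n)).toSphere univ ≠ 0 := by
    rw [Ne, Measure.measure_univ_eq_zero]
    exact Measure.toSphere_ne_zero _
  rw [sig, Measure.smul_apply, smul_eq_mul]
  exact ENNReal.inv_mul_cancel h1 (measure_ne_top _ _)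

/-- the map of the sphere induced by an isometry -/
noncomputable def sphMap {n : ℕ} (U : Cn n ≃ₗᵢ[ℝ] Cn n) (u : Sph n) : Sph n :=
  ⟨U u, by
    rw [mem_sphere_zero_iff_norm, U.norm_map]
    exact mem_sphere_zero_iff_norm.mp u.2⟩

theorem sphMap_cont {n : ℕ} (U : Cn n ≃ₗᵢ[ℝ] Cn n) : Continuous (sphMap U) :=
  (U.continuous.comp continuous_subtype_val).subtype_mk _

theorem sig_map {n : ℕ} (U : Cn n ≃ₗᵢ[ℝ] Cn n) : (sig n).map (sphMap U) = sig n := by
  ext s hs
  rw [Measure.map_apply (sphMap_cont U).measurable hs, sig, Measure.smul_apply,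
    Measure.smul_apply]
  congr 1
  rw [Measure.toSphere_apply' _ ((sphMap_cont U).measurable hs), Measure.toSphere_apply' _ hs]
  congr 1
  have h1 : Ioo (0 : ℝ) 1 • (Subtype.val '' (sphMap U ⁻¹' s) : Set (Cn n)) =
      U ⁻¹' (Ioo (0 : ℝ) 1 • (Subtype.val '' s : Set (Cn n))) := by
    ext x
    rw [Set.mem_smul, mem_preimage, Set.mem_smul]
    constructor
    · rintro ⟨r, hr, _, ⟨u, hu, rfl⟩, rfl⟩
      exact ⟨r, hr, _, ⟨_, hu, rfl⟩, by simp [sphMap]⟩
    · rintro ⟨r, hr, _, ⟨u, hu, rfl⟩, hx⟩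
      refine ⟨r, hr, U.symm u, ⟨sphMap U.symm u, ?_, rfl⟩, ?_⟩
      · have : sphMap U (sphMap U.symm u) = u := by
          apply Subtype.ext
          simp [sphMap]
        rwa [mem_preimage, this]
      · have hx' : r • (u : Cn n) = U x := hx
        change r • U.symm (u : Cn n) = x
        rw [← map_smul, hx']
        simp
  rw [h1]
  exact (U.measurePreserving).measure_preimage_equiv (f := U.toHomeomorph.toMeasurableEquiv) _

theorem integral_sphMap {n : ℕ} (U : Cn n ≃ₗᵢ[ℝ] Cn n) {F : Type*} [NormedAddCommGroup F]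
    [NormedSpace ℝ F] (g : Sph n → F) (hg : Continuous g) :
    ∫ u, g (sphMap U u) ∂(sig n) = ∫ u, g u ∂(sig n) := by
  conv_rhs => rw [← sig_map U]
  rw [integral_map (sphMap_cont U).measurable.aemeasurable]
  exact hg.aestronglyMeasurable

/-- real hyperplanes are null sets -/
theorem sig_hyper {n : ℕ} (V : Submodule ℝ (Cn n)) (hV : V ≠ ⊤) :
    sig n {u : Sph n | (u : Cn n) ∈ V} = 0 := by
  have hs : MeasurableSet {u : Sph n | (u : Cn n) ∈ V} := by
    have : IsClosed (V : Set (Cn n)) := V.closed_of_finiteDimensional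
    exact (this.preimage continuous_subtype_val).measurableSet
  rw [sig, Measure.smul_apply, Measure.toSphere_apply' _ hs]
  have h1 : (volume : Measure (Cn n)) (Ioo (0 : ℝ) 1 • (Subtype.val '' {u : Sph n | (u : Cn n) ∈ V})) = 0 := by
    apply measure_mono_null _ (Measure.addHaar_submodule (volume : Measure (Cn n)) V hV)
    intro x hx
    obtain ⟨r, _, _, ⟨u, hu, rfl⟩, rfl⟩ := Set.mem_smul.mp hx
    exact V.smul_mem r hu
  rw [h1]
  simp

end Pool.Agent.V1173.Herg
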